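import Pool.Agent.Helper90.PF.Cassels

/-!
# Anisotropic diagonal forms over polynomial rings
-/

namespace Pool.H90PF

open Polynomial

/-- The diagonal form with coefficients `ρ` is anisotropic. -/
def Aniso {A : Type*} [CommRing A] {J : Type*} [Fintype J] (ρ : J → A) : Prop :=
  ∀ b : J → A, ∑ j, ρ j * b j ^ 2 = 0 → ∀ j, b j = 0

theorem Aniso.of_injective {A B J J' : Type*} [CommRing A] [CommRing B] [Fintype J] [Fintype J']
    (φ : A →+* B) (hφ : Function.Injective φ) (e : J' → J) (he : Function.Injective e)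
    (ρ' : J' → A) (ρ : J → B) (h : ∀ j, φ (ρ' j) = ρ (e j)) (hρ : Aniso ρ) : Aniso ρ' := by
  classical
  intro b hb j
  have h1 : ∑ i, φ (ρ' i * b i ^ 2) =
      ∑ i, ρ i * (Function.extend e (fun i => φ (b i)) 0 i) ^ 2 := by
    apply Fintype.sum_of_injective e he
    · intro i hi
      rw [Function.extend_apply' _ _ _ (by simpa using hi)]
      simp
    · intro i
      rw [he.extend_apply, map_mul, map_pow, h]
  rw [← map_sum, hb, map_zero] at h1
  have h2 := hρ _ h1.symm (e j)
  rw [he.extend_apply] at h2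
  exact hφ (by rw [h2, map_zero])

theorem aniso_step {A J : Type*} [CommRing A] [IsDomain A] [Fintype J] (ρ : J → A)
    (hρ : Aniso ρ) (α g : A) (hα : α ^ 2 = -g) (h2α : 2 * α ≠ 0) :
    ∀ (n : ℕ) (b c : J → A[X]), (∀ j, b j = 0 ∨ (b j).natDegree < n) →
      (∀ j, c j = 0 ∨ (c j).natDegree < n) →
      ∑ j, C (ρ j) * b j ^ 2 + (X ^ 2 + C g) * ∑ j, C (ρ j) * c j ^ 2 = 0 →
      (∀ j, b j = 0) ∧ ∀ j, c j = 0 := by
  intro n
  induction n with
  | zero =>
    intro b c hb hc _
    exact ⟨fun j => (hb j).resolve_right (Nat.not_lt_zero _),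
      fun j => (hc j).resolve_right (Nat.not_lt_zero _)⟩
  | succ n ih =>
    intro b c hb hc h
    have hfac : (X ^ 2 + C g : A[X]) = (X - C α) * (X + C α) := by
      have : g = -(α ^ 2) := by rw [hα]; ring
      rw [this, C_neg, C_pow]; ring
    have hXα : (X - C α : A[X]) ≠ 0 := X_sub_C_ne_zero α
    -- the b_j vanish at α
    have hbα : ∀ j, (b j).eval α = 0 := by
      apply hρ
      have h1 := congrArg (eval α) h
      rw [hfac] at h1
      simp only [eval_add, eval_mul, eval_sub, eval_X, eval_C, sub_self, zero_mul, add_zero,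
        eval_zero, eval_finsetSum, eval_pow] at h1
      exact h1
    have hbd : ∀ j, ∃ b' : A[X], b j = (X - C α) * b' := fun j =>
      (dvd_iff_isRoot.mpr (hbα j))
    choose b' hb' using hbd
    have h2 : (X - C α) * (∑ j, C (ρ j) * b' j ^ 2) + (X + C α) * ∑ j, C (ρ j) * c j ^ 2 = 0 := by
      apply mul_left_cancel₀ hXα
      rw [mul_zero, ← h, hfac, mul_add, ← mul_assoc, Finset.mul_sum]
      congr 1
      · refine Finset.sum_congr rfl fun j _ => ?_
        rw [hb' j]; ring
      · ring
    have hcα : ∀ j, (c j).eval α = 0 := by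
      apply hρ
      have h1 := congrArg (eval α) h2
      simp only [eval_add, eval_mul, eval_sub, eval_X, eval_C, sub_self, zero_mul, zero_add,
        eval_zero, eval_finsetSum, eval_pow] at h1
      have h3 : α + α ≠ 0 := by rwa [← two_mul]
      exact (mul_eq_zero.mp h1).resolve_left h3
    have hcd : ∀ j, ∃ c' : A[X], c j = (X - C α) * c' := fun j =>
      (dvd_iff_isRoot.mpr (hcα j))
    choose c' hc' using hcd
    have h4 : ∑ j, C (ρ j) * b' j ^ 2 + (X ^ 2 + C g) * ∑ j, C (ρ j) * c' j ^ 2 = 0 := by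
      apply mul_left_cancel₀ hXα
      rw [mul_zero, ← h2, hfac, mul_add]
      congr 1
      have : ∑ j, C (ρ j) * c j ^ 2 = (X - C α) ^ 2 * ∑ j, C (ρ j) * c' j ^ 2 := by
        rw [Finset.mul_sum]
        refine Finset.sum_congr rfl fun j _ => ?_
        rw [hc' j]; ring
      rw [this]; ring
    have hdeg : ∀ (x y : A[X]), x = (X - C α) * y → (x = 0 ∨ x.natDegree < n + 1) →
        (y = 0 ∨ y.natDegree < n) := by
      intro x y hxy hx
      by_cases hy : y = 0
      · exact Or.inl hy
      · right
        have hx0 : x ≠ 0 := by rw [hxy]; exact mul_ne_zero hXα hy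
        have hx1 := hx.resolve_left hx0
        rw [hxy, natDegree_mul hXα hy, natDegree_X_sub_C] at hx1
        omega
    obtain ⟨hb0, hc0⟩ := ih b' c' (fun j => hdeg _ _ (hb' j) (hb j))
      (fun j => hdeg _ _ (hc' j) (hc j)) h4
    exact ⟨fun j => by rw [hb' j, hb0 j, mul_zero], fun j => by rw [hc' j, hc0 j, mul_zero]⟩

theorem aniso_polynomial {A J : Type*} [CommRing A] [IsDomain A] [Fintype J] (ρ : J → A)
    (hρ : Aniso ρ) (α g : A) (hα : α ^ 2 = -g) (h2α : 2 * α ≠ 0) :
    Aniso (fun x : Bool × J => C (ρ x.2) * (if x.1 then X ^ 2 + C g else 1 : A[X])) := by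
  intro b hb x
  have h1 : ∑ j, C (ρ j) * b (false, j) ^ 2 + (X ^ 2 + C g) * ∑ j, C (ρ j) * b (true, j) ^ 2
      = 0 := by
    rw [← hb, Fintype.sum_prod_type, Fintype.sum_bool, add_comm, Finset.mul_sum]
    congr 1
    · refine Finset.sum_congr rfl fun j _ => ?_
      simp only [if_true]
      ring
    · refine Finset.sum_congr rfl fun j _ => ?_
      simp
  have hbd : ∀ x, b x = 0 ∨ (b x).natDegree < (∑ y, (b y).natDegree) + 1 := by
    intro x
    right
    have : (b x).natDegree ≤ ∑ y, (b y).natDegree :=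
      Finset.single_le_sum (f := fun y => (b y).natDegree) (fun i _ => Nat.zero_le _)
        (Finset.mem_univ x)
    omega
  obtain ⟨h2, h3⟩ := aniso_step ρ hρ α g hα h2α ((∑ y, (b y).natDegree) + 1)
    (fun j => b (false, j)) (fun j => b (true, j)) (fun j => hbd _) (fun j => hbd _) h1
  obtain ⟨x1, x2⟩ := x
  cases x1
  · exact h2 x2
  · exact h3 x2

/-- The product of the `X_i ^ 2 + g`, `i` in the set described by `ε`. -/
noncomputable def pe {R : Type*} [CommRing R] {a : ℕ} (g : R) (ε : Fin a → Bool) :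
    MvPolynomial (Fin a) R :=
  ∏ i, (if ε i then MvPolynomial.X i ^ 2 + MvPolynomial.C g else 1)

theorem map_pe {R S : Type*} [CommRing R] [CommRing S] (f : R →+* S) {a : ℕ} (g : R)
    (ε : Fin a → Bool) : MvPolynomial.map f (pe g ε) = pe (f g) ε := by
  unfold pe
  rw [map_prod]
  refine Finset.prod_congr rfl fun i _ => ?_
  split_ifs
  · simp
  · simp

theorem aniso_mv {E J : Type*} [Field E] [Fintype J] (ρ : J → E)
    (hρ : Aniso ρ) (α g : E) (hα : α ^ 2 = -g) (h2α : 2 * α ≠ 0) (a : ℕ) :
    Aniso (fun x : J × (Fin a → Bool) =>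
      (MvPolynomial.C (ρ x.1) * pe g x.2 : MvPolynomial (Fin a) E)) := by
  induction a with
  | zero =>
    refine Aniso.of_injective (MvPolynomial.isEmptyAlgEquiv E (Fin 0)).toRingHom
      (MvPolynomial.isEmptyAlgEquiv E (Fin 0)).injective (fun x => x.1) ?_ _ ρ ?_ hρ
    · intro x y hxy
      exact Prod.ext hxy (Subsingleton.elim _ _)
    · intro x
      have : pe g x.2 = 1 := by
        unfold pe
        rw [Finset.univ_eq_empty, Finset.prod_empty]
      rw [this, mul_one]
      exact (MvPolynomial.isEmptyAlgEquiv E (Fin 0)).commutes (ρ x.1)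
  | succ a ih =>
    have hdom : 2 * MvPolynomial.C (σ := Fin a) α ≠ 0 := by
      intro h
      apply h2α
      have h1 : MvPolynomial.C (σ := Fin a) (2 * α) = MvPolynomial.C 0 := by
        rw [map_mul, map_zero, ← h, map_ofNat]
      exact MvPolynomial.C_injective _ _ h1
    have h1 := aniso_polynomial _ ih (MvPolynomial.C α) (MvPolynomial.C g)
      (by rw [← map_pow, hα, map_neg]) hdom
    refine Aniso.of_injective (MvPolynomial.finSuccEquiv E a : _ →+* _)
      (MvPolynomial.finSuccEquiv E a).injective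
      (fun x => (x.2 0, (x.1, fun i => x.2 i.succ))) ?_ _ _ ?_ h1
    · intro x y hxy
      simp only [Prod.mk.injEq] at hxy
      refine Prod.ext hxy.2.1 ?_
      funext i
      refine Fin.cases hxy.1 (fun i => ?_) i
      exact congrFun hxy.2.2 i
    · intro x
      show MvPolynomial.finSuccEquiv E a (MvPolynomial.C (ρ x.1) * pe g x.2) = _
      have hC : ∀ c : E, MvPolynomial.finSuccEquiv E a (MvPolynomial.C c) =
          C (MvPolynomial.C c) := by
        intro c
        rw [MvPolynomial.finSuccEquiv_apply, MvPolynomial.coe_eval₂Hom, MvPolynomial.eval₂_C]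
        simp
      have hpe : MvPolynomial.finSuccEquiv E a (pe g x.2) =
          (if x.2 0 then X ^ 2 + C (MvPolynomial.C g) else 1) *
            C (pe g (fun i => x.2 i.succ)) := by
        unfold pe
        rw [map_prod, Fin.prod_univ_succ, map_prod]
        congr 1
        · split_ifs
          · rw [map_add, map_pow, MvPolynomial.finSuccEquiv_X_zero, hC]
          · rw [map_one]
        · refine Finset.prod_congr rfl fun i _ => ?_
          split_ifs
          · rw [map_add, map_pow, MvPolynomial.finSuccEquiv_X_succ, hC, map_add, map_pow]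
          · rw [map_one, map_one]
      rw [map_mul, hC, hpe, C_mul]
      ring

theorem Aniso.fraction {A K J : Type*} [CommRing A] [IsDomain A] [Field K] [Algebra A K]
    [IsFractionRing A K] [Fintype J] (ρ : J → A) (hρ : Aniso ρ) :
    Aniso (fun j => algebraMap A K (ρ j)) := by
  intro v hv j
  obtain ⟨b, hb⟩ := IsLocalization.exist_integer_multiples_of_finite (nonZeroDivisors A) v
  choose g hg using hb
  have hb0 : algebraMap A K (b : A) ≠ 0 :=
    IsFractionRing.to_map_ne_zero_of_mem_nonZeroDivisors b.2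
  have hinj := IsFractionRing.injective A K
  have h1 : ∑ i, ρ i * g i ^ 2 = 0 := by
    apply hinj
    rw [map_sum, map_zero]
    have : ∀ i, algebraMap A K (ρ i * g i ^ 2) =
        algebraMap A K (b : A) ^ 2 * (algebraMap A K (ρ i) * v i ^ 2) := by
      intro i
      rw [map_mul, map_pow, hg i, Algebra.smul_def, mul_pow]
      ring
    rw [Finset.sum_congr rfl fun i _ => this i, ← Finset.mul_sum, hv, mul_zero]
  have h2 := hρ g h1 j
  have h3 := hg j
  rw [h2, map_zero, Algebra.smul_def] at h3
  rcases mul_eq_zero.mp h3.symm with h | h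
  · exact absurd h hb0
  · exact h

end Pool.H90PF
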