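import Mathlib

/-!
# Sums of squares over formally real fields: Cassels' theorem with linear constraints
-/

namespace Pool.H90PF

open Polynomial

/-- Formally real: a sum of squares vanishes only if all summands do. -/
def FR (K : Type*) [CommRing K] : Prop :=
  ∀ (m : ℕ) (v : Fin m → K), ∑ i, v i ^ 2 = 0 → ∀ i, v i = 0

theorem FR.two_ne_zero {K : Type*} [Field K] (hK : FR K) : (2 : K) ≠ 0 := by
  intro h
  have h1 := hK 2 ![1, 1] (by
    simp only [Fin.sum_univ_two, Matrix.cons_val_zero, Matrix.cons_val_one]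
    norm_num
    exact h) 0
  simp at h1

theorem FR.fractionRing {A K : Type*} [CommRing A] [IsDomain A] [Field K] [Algebra A K]
    [IsFractionRing A K] (hA : FR A) : FR K := by
  intro m v hv i
  obtain ⟨b, hb⟩ := IsLocalization.exist_integer_multiples_of_finite (nonZeroDivisors A) v
  choose g hg using hb
  have hb0 : algebraMap A K (b : A) ≠ 0 :=
    IsFractionRing.to_map_ne_zero_of_mem_nonZeroDivisors b.2
  have hinj := IsFractionRing.injective A K
  have h1 : ∑ i, g i ^ 2 = 0 := by
    apply hinj
    rw [map_sum, map_zero]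
    have : ∀ i, algebraMap A K (g i ^ 2) = algebraMap A K (b : A) ^ 2 * v i ^ 2 := by
      intro i
      rw [map_pow, hg i, Algebra.smul_def, mul_pow]
    rw [Finset.sum_congr rfl fun i _ => this i, ← Finset.mul_sum, hv, mul_zero]
  have h2 := hA m g h1 i
  have h3 := hg i
  rw [h2, map_zero, Algebra.smul_def] at h3
  rcases mul_eq_zero.mp h3.symm with h | h
  · exact absurd h hb0
  · exact h

theorem FR.mvPolynomial {k : Type*} [Field k] [Infinite k] (hk : FR k) (σ : Type*) :
    FR (MvPolynomial σ k) := by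
  intro m g hg i
  apply MvPolynomial.funext
  intro a
  rw [map_zero]
  apply hk m (fun i => MvPolynomial.eval a (g i))
  have := congrArg (MvPolynomial.eval a) hg
  rw [map_sum, map_zero] at this
  rw [← this]
  exact Finset.sum_congr rfl fun i _ => (map_pow _ _ _).symm

theorem coeff_sum_sq {K : Type*} [Field K] {m : ℕ} (g : Fin m → K[X]) (N : ℕ)
    (h : ∀ i, (g i).natDegree ≤ N) :
    (∑ i, g i ^ 2).coeff (2 * N) = ∑ i, ((g i).coeff N) ^ 2 := by
  rw [Polynomial.finsetSum_coeff]
  exact Finset.sum_congr rfl fun i _ => Polynomial.coeff_pow_of_natDegree_le (h i)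

theorem natDegree_le_of_sum_sq {K : Type*} [Field K] (hK : FR K) {m : ℕ} (g : Fin m → K[X])
    (N : ℕ) (h : (∑ i, g i ^ 2).natDegree ≤ 2 * N) : ∀ i, (g i).natDegree ≤ N := by
  have key : ∀ M, (∀ i, (g i).natDegree ≤ N + M) → ∀ i, (g i).natDegree ≤ N := by
    intro M
    induction M with
    | zero => intro h; simpa using h
    | succ M ih =>
      intro hM
      apply ih
      have hc : ∑ i, ((g i).coeff (N + (M + 1))) ^ 2 = 0 := by
        rw [← coeff_sum_sq g _ hM]
        apply Polynomial.coeff_eq_zero_of_natDegree_lt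
        omega
      have h0 := hK m _ hc
      intro i
      have h1 := hM i
      by_contra hlt
      push Not at hlt
      have h2 : (g i).natDegree = N + (M + 1) := by omega
      have hz := h0 i
      rw [← h2] at hz
      have hz' : g i = 0 := by
        rwa [Polynomial.coeff_natDegree, Polynomial.leadingCoeff_eq_zero] at hz
      rw [hz', natDegree_zero] at h2
      omega
  apply key (∑ i, (g i).natDegree)
  intro i
  have : (g i).natDegree ≤ ∑ i, (g i).natDegree :=
    Finset.single_le_sum (f := fun i => (g i).natDegree) (fun i _ => Nat.zero_le _)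
      (Finset.mem_univ i)
  omega

theorem FR.polynomial {K : Type*} [Field K] (hK : FR K) : FR K[X] := by
  intro m g hg i
  have h0 : ∀ i, (g i).natDegree ≤ 0 := natDegree_le_of_sum_sq hK g 0 (by rw [hg]; simp)
  have h1 := coeff_sum_sq g 0 h0
  rw [hg, coeff_zero] at h1
  have h2 := hK m _ h1.symm i
  rw [Polynomial.eq_C_of_natDegree_le_zero (h0 i), h2, C_0]

theorem cassels_core {K : Type*} [Field K] (hK : FR K) {m : ℕ} {ι : Type*} (e : ι → Fin m → K)
    (p : K[X]) :
    ∀ (n : ℕ) (b : K[X]) (g : Fin m → K[X]), b.natDegree ≤ n → b ≠ 0 →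
      ∑ i, g i ^ 2 = p * b ^ 2 → (∀ l, ∑ i, C (e l i) * g i = 0) →
      ∃ g' : Fin m → K[X], ∑ i, g' i ^ 2 = p ∧ ∀ l, ∑ i, C (e l i) * g' i = 0 := by
  intro n
  induction n with
  | zero =>
    intro b g hb hb0 hg he
    have hbC : b = C (b.coeff 0) := Polynomial.eq_C_of_natDegree_le_zero hb
    have hc0 : b.coeff 0 ≠ 0 := by
      intro h
      rw [h, C_0] at hbC
      exact hb0 hbC
    refine ⟨fun i => C (b.coeff 0)⁻¹ * g i, ?_, ?_⟩
    · have : ∀ i, (C (b.coeff 0)⁻¹ * g i) ^ 2 = C (b.coeff 0)⁻¹ ^ 2 * g i ^ 2 := fun i =>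
        mul_pow _ _ _
      rw [Finset.sum_congr rfl fun i _ => this i, ← Finset.mul_sum, hg]
      have h1 : C (b.coeff 0)⁻¹ * b = 1 := by
        conv_lhs => rw [hbC]
        rw [coeff_C_zero, ← C_mul, inv_mul_cancel₀ hc0, C_1]
      calc C (b.coeff 0)⁻¹ ^ 2 * (p * b ^ 2) = p * (C (b.coeff 0)⁻¹ * b) ^ 2 := by ring
        _ = p := by rw [h1]; ring
    · intro l
      have : ∀ i, C (e l i) * (C (b.coeff 0)⁻¹ * g i) = C (b.coeff 0)⁻¹ * (C (e l i) * g i) :=
        fun i => by ring
      rw [Finset.sum_congr rfl fun i _ => this i, ← Finset.mul_sum, he l, mul_zero]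
  | succ n ih =>
    intro b g hb hb0 hg he
    by_cases hlt : b.natDegree ≤ n
    · exact ih b g hlt hb0 hg he
    have hbpos : b.natDegree ≠ 0 := by omega
    set v : Fin m → K[X] := fun i => g i / b with hv
    set r : Fin m → K[X] := fun i => g i % b with hr
    have hdiv : ∀ i, b * v i + r i = g i := fun i => EuclideanDomain.div_add_mod (g i) b
    have hrdeg : ∀ i, (r i).natDegree < b.natDegree := fun i =>
      Polynomial.natDegree_mod_lt (g i) hbpos
    -- the constraints for v
    have hev : ∀ l, ∑ i, C (e l i) * v i = 0 := by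
      intro l
      have h1 : b * (∑ i, C (e l i) * v i) = - ∑ i, C (e l i) * r i := by
        have : ∑ i, C (e l i) * g i =
            b * (∑ i, C (e l i) * v i) + ∑ i, C (e l i) * r i := by
          rw [Finset.mul_sum, ← Finset.sum_add_distrib]
          refine Finset.sum_congr rfl fun i _ => ?_
          rw [← hdiv i]; ring
        rw [he l] at this
        exact eq_neg_of_add_eq_zero_left this.symm
      by_contra hne
      have h2 : (b * (∑ i, C (e l i) * v i)).natDegree ≥ b.natDegree := by
        rw [natDegree_mul hb0 hne]; omega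
      rw [h1, natDegree_neg] at h2
      have h3 : (∑ i, C (e l i) * r i).natDegree ≤ b.natDegree - 1 := by
        apply Polynomial.natDegree_sum_le_of_forall_le
        intro i _
        refine le_trans (Polynomial.natDegree_C_mul_le _ _) ?_
        have := hrdeg i
        omega
      omega
    by_cases hr0 : ∀ i, r i = 0
    · refine ⟨v, ?_, hev⟩
      have h1 : b ^ 2 * ∑ i, v i ^ 2 = b ^ 2 * p := by
        rw [mul_comm (b ^ 2) p, ← hg, Finset.mul_sum]
        refine Finset.sum_congr rfl fun i _ => ?_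
        rw [← hdiv i, hr0 i]; ring
      exact mul_left_cancel₀ (pow_ne_zero 2 hb0) h1
    · set s : K[X] := ∑ i, g i * v i with hs
      set a : K[X] := ∑ i, v i ^ 2 - p with ha
      set c : K[X] := 2 * (b * p - s) with hc
      have hrr : ∑ i, r i ^ 2 = b * (a * b + c) := by
        have h1 : ∀ i, r i ^ 2 = g i ^ 2 - 2 * b * (g i * v i) + b ^ 2 * v i ^ 2 := by
          intro i
          have : r i = g i - b * v i := by rw [← hdiv i]; ring
          rw [this]; ring
        rw [Finset.sum_congr rfl fun i _ => h1 i, Finset.sum_add_distrib,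
          Finset.sum_sub_distrib, ← Finset.mul_sum, ← Finset.mul_sum, hg, ← hs, hc, ha]
        ring
      have hgg : ∑ i, (a * g i + c * v i) ^ 2 = p * (a * b + c) ^ 2 := by
        have h1 : ∀ i, (a * g i + c * v i) ^ 2 =
            a ^ 2 * g i ^ 2 + 2 * a * c * (g i * v i) + c ^ 2 * v i ^ 2 := by
          intro i; ring
        have h2 : ∑ i, v i ^ 2 = a + p := by rw [ha]; ring
        rw [Finset.sum_congr rfl fun i _ => h1 i, Finset.sum_add_distrib,
          Finset.sum_add_distrib, ← Finset.mul_sum, ← Finset.mul_sum, ← Finset.mul_sum,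
          hg, h2, ← hs, hc]
        ring
      have hne : a * b + c ≠ 0 := by
        intro h
        rw [h, mul_zero] at hrr
        exact hr0 (FR.polynomial hK m r hrr)
      have hdeg : (a * b + c).natDegree ≤ n := by
        have h1 : (∑ i, r i ^ 2).natDegree ≤ 2 * (b.natDegree - 1) := by
          apply Polynomial.natDegree_sum_le_of_forall_le
          intro i _
          refine le_trans Polynomial.natDegree_pow_le ?_
          have := hrdeg i
          omega
        rw [hrr, natDegree_mul hb0 hne] at h1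
        omega
      apply ih (a * b + c) (fun i => a * g i + c * v i) hdeg hne hgg
      intro l
      have h1 : ∀ i, C (e l i) * (a * g i + c * v i) =
          a * (C (e l i) * g i) + c * (C (e l i) * v i) := by
        intro i; ring
      rw [Finset.sum_congr rfl fun i _ => h1 i, Finset.sum_add_distrib, ← Finset.mul_sum,
        ← Finset.mul_sum, he l, hev l]
      ring

/-- A representation of `r X^2 + d` by a polynomial vector is linear. -/
theorem linear_split {K : Type*} [Field K] (hK : FR K) {m : ℕ} (g : Fin m → K[X]) (r d : K)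
    (h : ∑ i, g i ^ 2 = C r * X ^ 2 + C d) :
    ∃ u w : Fin m → K, (∀ i, g i = C (u i) * X + C (w i)) ∧ u ⬝ᵥ u = r ∧ u ⬝ᵥ w = 0 ∧
      w ⬝ᵥ w = d := by
  have hdeg : ∀ i, (g i).natDegree ≤ 1 := by
    apply natDegree_le_of_sum_sq hK g 1
    rw [h]
    compute_degree
  have hlin : ∀ i, g i = C ((g i).coeff 1) * X + C ((g i).coeff 0) := fun i =>
    Polynomial.eq_X_add_C_of_natDegree_le_one (hdeg i)
  refine ⟨fun i => (g i).coeff 1, fun i => (g i).coeff 0, hlin, ?_, ?_, ?_⟩
  all_goals
    have h1 : ∑ i, g i ^ 2 = C (∑ i, (g i).coeff 1 * (g i).coeff 1) * X ^ 2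
        + C (2 * ∑ i, (g i).coeff 1 * (g i).coeff 0) * X
        + C (∑ i, (g i).coeff 0 * (g i).coeff 0) := by
      have h2 : ∀ i, g i ^ 2 = C ((g i).coeff 1 * (g i).coeff 1) * X ^ 2
          + C (2 * ((g i).coeff 1 * (g i).coeff 0)) * X
          + C ((g i).coeff 0 * (g i).coeff 0) := by
        intro i
        conv_lhs => rw [hlin i]
        simp only [C_mul, C_ofNat]
        ring
      rw [Finset.sum_congr rfl fun i _ => h2 i, Finset.sum_add_distrib,
        Finset.sum_add_distrib, ← Finset.sum_mul, ← Finset.sum_mul, Finset.mul_sum]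
      simp only [map_sum]
    rw [h] at h1
  · have := congrArg (fun p => coeff p 2) h1
    simp only [coeff_add, coeff_C_mul, coeff_X_pow, coeff_X, coeff_C] at this
    simpa [dotProduct] using this.symm
  · have := congrArg (fun p => coeff p 1) h1
    simp only [coeff_add, coeff_C_mul, coeff_X_pow, coeff_X, coeff_C] at this
    have h3 : 2 * ∑ i, (g i).coeff 1 * (g i).coeff 0 = 0 := by simpa using this.symm
    rcases mul_eq_zero.mp h3 with h | h
    · exact absurd h hK.two_ne_zero
    · exact h
  · have := congrArg (fun p => coeff p 0) h1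
    simp only [coeff_add, coeff_C_mul, coeff_X_pow, coeff_X, coeff_C] at this
    simpa [dotProduct] using this.symm

/-- A reflection moving `v` to `e`. -/
theorem exists_refl {L : Type*} [Field L] (hL : FR L) {m : ℕ} (v e : Fin m → L)
    (h : v ⬝ᵥ v = e ⬝ᵥ e) :
    ∃ σ : (Fin m → L) → (Fin m → L), (∀ x y, σ x ⬝ᵥ σ y = x ⬝ᵥ y) ∧ σ v = e ∧
      ∀ x, x ⬝ᵥ v = 0 → x ⬝ᵥ e = 0 → σ x = x := by
  by_cases hve : v = e
  · exact ⟨id, fun x y => rfl, hve, fun x _ _ => rfl⟩
  set d := v - e with hd
  have hdd : d ⬝ᵥ d ≠ 0 := by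
    intro h0
    apply hve
    have h1 : ∑ i, d i ^ 2 = 0 := by
      rw [← h0]
      exact Finset.sum_congr rfl fun i _ => sq (d i)
    have h2 := hL m d h1
    funext i
    have := h2 i
    rw [hd, Pi.sub_apply, sub_eq_zero] at this
    exact this
  refine ⟨fun x => x - (2 * (x ⬝ᵥ d) / (d ⬝ᵥ d)) • d, ?_, ?_, ?_⟩
  · intro x y
    simp only [sub_dotProduct, dotProduct_sub, smul_dotProduct, dotProduct_smul, smul_eq_mul]
    rw [dotProduct_comm d y]
    field_simp
    ring
  · have h1 : 2 * (v ⬝ᵥ d) = d ⬝ᵥ d := by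
      rw [hd]
      simp only [sub_dotProduct, dotProduct_sub]
      rw [dotProduct_comm e v, ← h]
      ring
    show v - (2 * (v ⬝ᵥ d) / (d ⬝ᵥ d)) • d = e
    rw [h1, div_self hdd, one_smul, hd]
    simp
  · intro x hx hxe
    have : x ⬝ᵥ d = 0 := by rw [hd, dotProduct_sub, hx, hxe, sub_zero]
    show x - (2 * (x ⬝ᵥ d) / (d ⬝ᵥ d)) • d = x
    rw [this]; simp

end Pool.H90PF
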