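import Pool.Agent.Helper90.PF.Cassels

/-!
# The subform theorem: a diagonal form in new variables which is a sum of `m` squares
-/

namespace Pool.H90PF

open Polynomial

/-- Clearing denominators of a vector. -/
theorem clear_vec {A K : Type*} [CommRing A] [IsDomain A] [Field K] [Algebra A K]
    [IsFractionRing A K] {m : ℕ} (v : Fin m → K) :
    ∃ (b : A) (g : Fin m → A), b ≠ 0 ∧ ∀ i, algebraMap A K (g i) = algebraMap A K b * v i := by
  obtain ⟨b, hb⟩ := IsLocalization.exist_integer_multiples_of_finite (nonZeroDivisors A) v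
  choose g hg using hb
  refine ⟨b, g, nonZeroDivisors.coe_ne_zero b, fun i => ?_⟩
  rw [hg i, Algebra.smul_def]

/-- Specialisation: a constant norm is attained by a constant vector. -/
theorem descend_const {k : Type*} [Field k] [Infinite k] {q m : ℕ} {ι : Type*}
    (e : ι → Fin m → k) (c : k) (b : MvPolynomial (Fin q) k) (hb : b ≠ 0)
    (g : Fin m → MvPolynomial (Fin q) k) (h : ∑ i, g i ^ 2 = MvPolynomial.C c * b ^ 2)
    (he : ∀ l, ∑ i, MvPolynomial.C (e l i) * g i = 0) :
    ∃ u : Fin m → k, u ⬝ᵥ u = c ∧ ∀ l, e l ⬝ᵥ u = 0 := by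
  have : ∃ a, MvPolynomial.eval a b ≠ 0 := by
    by_contra hcon
    push Not at hcon
    apply hb
    apply MvPolynomial.funext
    intro a
    rw [hcon a, map_zero]
  obtain ⟨a, ha⟩ := this
  refine ⟨fun i => MvPolynomial.eval a (g i) / MvPolynomial.eval a b, ?_, ?_⟩
  · have h1 := congrArg (MvPolynomial.eval a) h
    rw [map_sum, map_mul, map_pow, MvPolynomial.eval_C] at h1
    have h2 : ∀ i, MvPolynomial.eval a (g i) / MvPolynomial.eval a b *
        (MvPolynomial.eval a (g i) / MvPolynomial.eval a b) =
        MvPolynomial.eval a (g i ^ 2) / (MvPolynomial.eval a b) ^ 2 := by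
      intro i
      rw [map_pow]
      field_simp
    rw [dotProduct, Finset.sum_congr rfl fun i _ => h2 i, ← Finset.sum_div, h1]
    field_simp
  · intro l
    have h1 := congrArg (MvPolynomial.eval a) (he l)
    rw [map_sum, map_zero] at h1
    have h2 : ∀ i, e l i * (MvPolynomial.eval a (g i) / MvPolynomial.eval a b) =
        MvPolynomial.eval a (MvPolynomial.C (e l i) * g i) / (MvPolynomial.eval a b) := by
      intro i
      rw [map_mul, MvPolynomial.eval_C, mul_div_assoc]
    rw [dotProduct, Finset.sum_congr rfl fun i _ => h2 i, ← Finset.sum_div, h1, zero_div]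

/-- The diagonal form with coefficients `r`, in `q` variables, the last one set to 1. -/
noncomputable def dform {k : Type*} [Field k] {q : ℕ} (r : Fin (q + 1) → k) :
    MvPolynomial (Fin q) k :=
  ∑ j : Fin q, MvPolynomial.C (r j.castSucc) * MvPolynomial.X j ^ 2 +
    MvPolynomial.C (r (Fin.last q))

/-- The subform theorem (Cassels, Pfister), with linear constraints. -/
theorem subform {k : Type*} [Field k] [Infinite k] (hk : FR k) (m : ℕ) :
    ∀ (q : ℕ) (ι : Type) (e : ι → Fin m → k) (r : Fin (q + 1) → k)
      (b : MvPolynomial (Fin q) k) (_ : b ≠ 0) (g : Fin m → MvPolynomial (Fin q) k),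
      ∑ i, g i ^ 2 = dform r * b ^ 2 → (∀ l, ∑ i, MvPolynomial.C (e l i) * g i = 0) →
      ∃ u : Fin (q + 1) → Fin m → k, (∀ j, u j ⬝ᵥ u j = r j) ∧
        (∀ j j', j ≠ j' → u j ⬝ᵥ u j' = 0) ∧ ∀ l j, e l ⬝ᵥ u j = 0 := by
  intro q
  induction q with
  | zero =>
    intro ι e r b hb g hg he
    have h1 : dform r = MvPolynomial.C (r 0) := by
      unfold dform
      rw [Finset.univ_eq_empty, Finset.sum_empty, zero_add]
      rfl
    rw [h1] at hg
    obtain ⟨u, hu, hue⟩ := descend_const e (r 0) b hb g hg he
    refine ⟨fun _ => u, fun j => ?_, fun j j' hj => ?_, fun l _ => hue l⟩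
    · have hj : j = 0 := Subsingleton.elim (α := Fin 1) j 0
      rw [hu, hj]
    · exact absurd (Subsingleton.elim (α := Fin 1) j j') hj
  | succ q ih =>
    intro ι e r b hb g hg he
    let K := FractionRing (MvPolynomial (Fin q) k)
    have hA : FR (MvPolynomial (Fin q) k) := FR.mvPolynomial hk _
    have hK : FR K := hA.fractionRing
    let α : MvPolynomial (Fin q) k →+* K := algebraMap _ _
    have hα : Function.Injective α := IsFractionRing.injective _ _
    let φ : MvPolynomial (Fin (q + 1)) k →+* K[X] :=
      (Polynomial.mapRingHom α).comp (MvPolynomial.finSuccEquiv k q : _ →+* _)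
    have hφ : Function.Injective φ := by
      intro x y hxy
      exact (MvPolynomial.finSuccEquiv k q).injective (Polynomial.map_injective α hα hxy)
    have hφC : ∀ c : k, φ (MvPolynomial.C c) = C (α (MvPolynomial.C c)) := by
      intro c
      show Polynomial.map α (MvPolynomial.finSuccEquiv k q (MvPolynomial.C c)) = _
      rw [MvPolynomial.finSuccEquiv_apply, MvPolynomial.coe_eval₂Hom, MvPolynomial.eval₂_C]
      simp
    have hφ0 : φ (MvPolynomial.X 0) = X := by
      show Polynomial.map α (MvPolynomial.finSuccEquiv k q (MvPolynomial.X 0)) = _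
      rw [MvPolynomial.finSuccEquiv_X_zero, Polynomial.map_X]
    have hφs : ∀ j : Fin q, φ (MvPolynomial.X j.succ) = C (α (MvPolynomial.X j)) := by
      intro j
      show Polynomial.map α (MvPolynomial.finSuccEquiv k q (MvPolynomial.X j.succ)) = _
      rw [MvPolynomial.finSuccEquiv_X_succ, Polynomial.map_C]
    -- the form
    let r' : Fin (q + 1) → k := fun j => r j.succ
    have hφF : φ (dform r) = C (α (MvPolynomial.C (r 0))) * X ^ 2 + C (α (dform r')) := by
      unfold dform
      rw [Fin.sum_univ_succ, map_add, map_add, map_mul, map_pow, hφ0, hφC, hφC, map_sum,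
        map_add, map_add, map_sum, map_sum, add_assoc]
      congr 1
      · congr 1
        refine Finset.sum_congr rfl fun j _ => ?_
        rw [map_mul, map_pow, hφs, hφC, map_mul, map_mul, map_pow, map_pow]
        rfl
    let E : ι → Fin m → K := fun l i => α (MvPolynomial.C (e l i))
    have hgφ : ∑ i, (φ (g i)) ^ 2 = (C (α (MvPolynomial.C (r 0))) * X ^ 2 + C (α (dform r'))) *
        (φ b) ^ 2 := by
      rw [← hφF, ← map_pow, ← map_mul, ← hg, map_sum]
      exact Finset.sum_congr rfl fun i _ => (map_pow _ _ _).symm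
    have heφ : ∀ l, ∑ i, C (E l i) * φ (g i) = 0 := by
      intro l
      rw [← map_zero φ, ← he l, map_sum]
      refine Finset.sum_congr rfl fun i _ => ?_
      rw [map_mul, hφC]
    have hbφ : φ b ≠ 0 := by
      intro h
      exact hb (hφ (by rw [h, map_zero]))
    obtain ⟨g', hg', he'⟩ := cassels_core hK E _ _ (φ b) (fun i => φ (g i)) le_rfl hbφ hgφ heφ
    obtain ⟨u, w, hlin, huu, huw, hww⟩ := linear_split hK g' _ _ hg'
    -- constraints
    have heuw : ∀ l, E l ⬝ᵥ u = 0 ∧ E l ⬝ᵥ w = 0 := by
      intro l
      have h1 : ∑ i, C (E l i) * g' i = C (E l ⬝ᵥ u) * X + C (E l ⬝ᵥ w) := by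
        rw [dotProduct, dotProduct, map_sum, map_sum, Finset.sum_mul, ← Finset.sum_add_distrib]
        refine Finset.sum_congr rfl fun i _ => ?_
        rw [hlin i, C_mul, C_mul]
        ring
      rw [he' l] at h1
      constructor
      · have := congrArg (fun p => coeff p 1) h1
        simp only [coeff_add, coeff_C_mul, coeff_X, coeff_C] at this
        simpa using this.symm
      · have := congrArg (fun p => coeff p 0) h1
        simp only [coeff_add, coeff_C_mul, coeff_X, coeff_C] at this
        simpa using this.symm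
    -- the vector u can be taken constant
    have hu0 : ∃ u0 : Fin m → k, u0 ⬝ᵥ u0 = r 0 ∧ ∀ l, e l ⬝ᵥ u0 = 0 := by
      obtain ⟨c, gu, hc, hgu⟩ := clear_vec (A := MvPolynomial (Fin q) k) u
      apply descend_const e (r 0) c hc gu
      · apply hα
        have h2 : ∀ i, α (gu i ^ 2) = α c ^ 2 * (u i * u i) := by
          intro i
          rw [map_pow, hgu i]; ring
        rw [map_sum, map_mul, map_pow, Finset.sum_congr rfl fun i _ => h2 i, ← Finset.mul_sum,
          mul_comm]
        congr 1
      · intro l
        apply hα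
        have h2 : ∀ i, α (MvPolynomial.C (e l i) * gu i) = α c * (E l i * u i) := by
          intro i
          rw [map_mul, hgu i]
          show α (MvPolynomial.C (e l i)) * (α c * u i) =
            α c * (α (MvPolynomial.C (e l i)) * u i)
          ring
        rw [map_sum, map_zero, Finset.sum_congr rfl fun i _ => h2 i, ← Finset.mul_sum]
        have := (heuw l).1
        rw [dotProduct] at this
        rw [this, mul_zero]
    obtain ⟨u0, hu0r, hu0e⟩ := hu0
    let U0 : Fin m → K := fun i => α (MvPolynomial.C (u0 i))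
    have hαC : ∀ x y : Fin m → k, (fun i => α (MvPolynomial.C (x i))) ⬝ᵥ
        (fun i => α (MvPolynomial.C (y i))) = α (MvPolynomial.C (x ⬝ᵥ y)) := by
      intro x y
      simp only [dotProduct, map_sum, map_mul]
    have hU0 : U0 ⬝ᵥ U0 = α (MvPolynomial.C (r 0)) := by
      rw [← hu0r]; exact hαC _ _
    have hEU0 : ∀ l, E l ⬝ᵥ U0 = 0 := by
      intro l
      have : E l ⬝ᵥ U0 = α (MvPolynomial.C (e l ⬝ᵥ u0)) := hαC _ _
      rw [this, hu0e l, map_zero, map_zero]
    obtain ⟨σ, hσ, hσu, hσfix⟩ := exists_refl hK u U0 (by rw [huu, hU0])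
    have hw'w' : σ w ⬝ᵥ σ w = α (dform r') := by rw [hσ, hww]
    have hU0w' : U0 ⬝ᵥ σ w = 0 := by
      rw [← hσu, hσ, huw]
    have hEw' : ∀ l, E l ⬝ᵥ σ w = 0 := by
      intro l
      have h1 : σ (E l) = E l := hσfix (E l) (heuw l).1 (hEU0 l)
      rw [← h1, hσ, (heuw l).2]
    -- apply the induction hypothesis to σ w
    obtain ⟨c, gw, hc, hgw⟩ := clear_vec (A := MvPolynomial (Fin q) k) (σ w)
    let e' : Option ι → Fin m → k := fun o => o.elim u0 e
    have h3 : ∑ i, gw i ^ 2 = dform r' * c ^ 2 := by
      apply hα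
      have h2 : ∀ i, α (gw i ^ 2) = α c ^ 2 * (σ w i * σ w i) := by
        intro i
        rw [map_pow, hgw i]; ring
      rw [map_sum, map_mul, map_pow, Finset.sum_congr rfl fun i _ => h2 i, ← Finset.mul_sum,
        mul_comm, ← hw'w']
      rfl
    have h4 : ∀ o, ∑ i, MvPolynomial.C (e' o i) * gw i = 0 := by
      intro o
      apply hα
      have h2 : ∀ i, α (MvPolynomial.C (e' o i) * gw i) =
          α c * (α (MvPolynomial.C (e' o i)) * σ w i) := by
        intro i
        rw [map_mul, hgw i]
        ring
      rw [map_sum, map_zero, Finset.sum_congr rfl fun i _ => h2 i, ← Finset.mul_sum]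
      have h5 : ∑ i, α (MvPolynomial.C (e' o i)) * σ w i = 0 := by
        cases o with
        | none => exact hU0w'
        | some l => exact hEw' l
      rw [h5, mul_zero]
    obtain ⟨u', hu'r, hu'o, hu'e⟩ := ih (Option ι) e' r' c hc gw h3 h4
    refine ⟨Fin.cons u0 u', ?_, ?_, ?_⟩
    · intro j
      refine Fin.cases ?_ (fun j => ?_) j
      · simpa using hu0r
      · simpa using hu'r j
    · intro j j' hjj
      revert hjj
      refine Fin.cases ?_ (fun j => ?_) j
      · refine Fin.cases ?_ (fun j' => ?_) j'
        · intro h; exact absurd rfl h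
        · intro _
          rw [Fin.cons_succ, Fin.cons_zero]
          exact hu'e none j'
      · refine Fin.cases ?_ (fun j' => ?_) j'
        · intro _
          rw [Fin.cons_succ, Fin.cons_zero, dotProduct_comm]
          exact hu'e none j
        · intro h
          rw [Fin.cons_succ, Fin.cons_succ]
          exact hu'o j j' (fun h' => h (by rw [h']))
    · intro l j
      refine Fin.cases ?_ (fun j => ?_) j
      · simpa using hu0e l
      · rw [Fin.cons_succ]
        exact hu'e (some l) j

end Pool.H90PF
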