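import Pool.Agent.Helper90.PF.Count
import Pool.Agent.Helper90.PF.Subform

/-!
# The core: diagonal forms over `K(z_1,…,z_a)` which are not contained in `m<1>`
-/

namespace Pool.H90PF

open Matrix

/-- The data of the nonreal extension. -/
theorem setup {K : Type} [Field K] (hK : FR K) {s : ℕ} (hs : Mult K (Fin s))
    (g : K) (γ : Fin s → K) (hγ : ∑ i, γ i ^ 2 = g)
    (hg : ∀ (f : Fin s → K) (i0 : Fin s), f i0 = 0 → ∑ i, f i ^ 2 ≠ g) (a : ℕ) :
    ∃ (F : Type) (_ : Field F) (θ : FractionRing (MvPolynomial (Fin a) K) →+* F) (A : F)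
      (T : Matrix (Fin s) (Fin s) F),
      A ^ 2 = -θ (algebraMap (MvPolynomial (Fin a) K) _ (MvPolynomial.C g)) ∧ A ≠ 0 ∧
      Tᵀ * T = -1 ∧
      Aniso (fun x : Fin s × (Fin a → Bool) =>
        θ (algebraMap (MvPolynomial (Fin a) K) _ (pe g x.2))) := by
  classical
  have hg0 : g ≠ 0 := by
    obtain ⟨i0, -⟩ := hs
    have := hg (fun _ => 0) i0 rfl
    simpa using this.symm
  haveI hfact : Fact (∀ r : K, r ^ 2 ≠ -g + 0 * r) := by
    refine ⟨fun r hr => hg0 ?_⟩
    have h1 : ∑ i : Fin (s + 1), (Fin.cons r γ : Fin (s + 1) → K) i ^ 2 = 0 := by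
      rw [Fin.sum_univ_succ]
      simp only [Fin.cons_zero, Fin.cons_succ]
      rw [hr, hγ]
      ring
    have h2 := hK _ _ h1
    rw [← hγ]
    apply Finset.sum_eq_zero
    intro i _
    have := h2 i.succ
    rw [Fin.cons_succ] at this
    rw [this]; simp
  let E := QuadraticAlgebra K (-g) 0
  let F := FractionRing (MvPolynomial (Fin a) E)
  let ψ : MvPolynomial (Fin a) K →+* F :=
    (algebraMap (MvPolynomial (Fin a) E) F).comp (MvPolynomial.map (algebraMap K E))
  have hψ : Function.Injective ψ := by
    intro x y hxy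
    exact MvPolynomial.map_injective _ (algebraMap K E).injective
      (IsFractionRing.injective (MvPolynomial (Fin a) E) F hxy)
  let θ : FractionRing (MvPolynomial (Fin a) K) →+* F := IsFractionRing.lift hψ
  have hθ : ∀ x : MvPolynomial (Fin a) K, θ (algebraMap _ _ x) =
      algebraMap (MvPolynomial (Fin a) E) F (MvPolynomial.map (algebraMap K E) x) := by
    intro x
    exact IsFractionRing.lift_algebraMap hψ x
  let α : E := ⟨0, 1⟩
  have hα : α ^ 2 = -(algebraMap K E g) := by
    rw [sq]
    refine QuadraticAlgebra.ext ?_ ?_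
    · rw [QuadraticAlgebra.re_mul]
      show 0 * 0 + (-g) * 1 * 1 = -g
      ring
    · rw [QuadraticAlgebra.im_mul]
      show 0 * 1 + 1 * 0 + 0 * 1 * 1 = -(0 : K)
      ring
  have hα0 : α ≠ 0 := by
    intro h
    have : (1 : K) = 0 := congrArg QuadraticAlgebra.im h
    exact one_ne_zero this
  have h2E : (2 : E) ≠ 0 := by
    intro h
    have : (2 : K) = 0 := congrArg QuadraticAlgebra.re h
    exact hK.two_ne_zero this
  let ι : K →+* F := (θ.comp (algebraMap (MvPolynomial (Fin a) K) _)).comp MvPolynomial.C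
  let A : F := algebraMap (MvPolynomial (Fin a) E) F (MvPolynomial.C α)
  have hA : A ^ 2 = -ι g := by
    show (algebraMap (MvPolynomial (Fin a) E) F (MvPolynomial.C α)) ^ 2 =
      -θ (algebraMap _ _ (MvPolynomial.C g))
    rw [hθ, MvPolynomial.map_C, ← map_pow, ← map_pow, hα, map_neg, map_neg]
  have hA0 : A ≠ 0 := by
    intro h
    apply hα0
    have h1 : MvPolynomial.C (σ := Fin a) α = 0 :=
      IsFractionRing.injective (MvPolynomial (Fin a) E) F (by rw [map_zero]; exact h)
    exact MvPolynomial.C_injective (Fin a) E (by rw [h1, map_zero])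
  obtain ⟨T0, hT0⟩ : ∃ T0 : Matrix (Fin s) (Fin s) K, T0ᵀ * T0 = g • 1 := by
    obtain ⟨i0, hM⟩ := hs
    obtain ⟨T, -, -, hT⟩ := hM γ
    refine ⟨T, ?_⟩
    rw [hT]
    congr 1
    rw [← hγ]
    exact Finset.sum_congr rfl fun i _ => (sq _).symm
  refine ⟨F, inferInstance, θ, A, A⁻¹ • T0.map ι, hA, hA0, ?_, ?_⟩
  · have h1 : (T0.map ι)ᵀ * (T0.map ι) = (ι g) • 1 := by
      rw [← Matrix.transpose_map, ← Matrix.map_mul, hT0]
      ext i j
      simp only [Matrix.map_apply, Matrix.smul_apply, Matrix.one_apply, smul_eq_mul]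
      split_ifs <;> simp
    rw [Matrix.transpose_smul, Matrix.smul_mul, Matrix.mul_smul, h1, smul_smul, smul_smul]
    have h2 : A⁻¹ * A⁻¹ * ι g = -1 := by
      have h3 : ι g = -(A * A) := by rw [← sq, hA]; ring
      rw [h3, mul_neg, neg_inj, mul_assoc, ← mul_assoc A⁻¹ A A, inv_mul_cancel₀ hA0, one_mul,
        inv_mul_cancel₀ hA0]
    rw [h2, neg_smul, one_smul]
  · have h1 : Aniso (fun _ : Fin s => (1 : E)) := by
      intro z hz
      refine aniso_level hK hs g hg z ?_
      rw [← hz]
      exact Finset.sum_congr rfl fun i _ => (one_mul _).symm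
    have h2 := (aniso_mv _ h1 α (algebraMap K E g) hα (mul_ne_zero h2E hα0) a).fraction
      (K := F)
    refine Aniso.of_injective (RingHom.id F) Function.injective_id id Function.injective_id _ _
      ?_ h2
    intro x
    show θ (algebraMap _ _ (pe g x.2)) = _
    rw [hθ, map_pe]
    simp

/-- The coefficients in the second case. -/
noncomputable def rii {K : Type} [Field K] (g : K) {a q s : ℕ}
    (κ : Option (Fin (q + 1)) → (Fin a → Bool)) :
    Fin (q * s + 1) → FractionRing (MvPolynomial (Fin a) K) :=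
  Fin.lastCases (algebraMap (MvPolynomial (Fin a) K) _ (pe g (κ (some (Fin.last q)))))
    (fun j => algebraMap (MvPolynomial (Fin a) K) _
      (pe g (κ (some (finProdFinEquiv.symm j).1.castSucc))))

/-- The coefficients in the first case. -/
noncomputable def ri {K : Type} [Field K] (g : K) {a q s : ℕ}
    (κ : Option (Fin q) → (Fin a → Bool)) :
    Fin (q * s + 1) → FractionRing (MvPolynomial (Fin a) K) :=
  Fin.lastCases (algebraMap (MvPolynomial (Fin a) K) _ (MvPolynomial.C g))
    (fun j => algebraMap (MvPolynomial (Fin a) K) _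
      (pe g (κ (some (finProdFinEquiv.symm j).1))))

theorem pe_false {R : Type*} [CommRing R] {a : ℕ} (g : R) :
    pe g (fun _ : Fin a => false) = 1 := by
  unfold pe
  simp

theorem core_ii {K : Type} [Field K] [Infinite K] (hK : FR K) {s : ℕ} (hs : Mult K (Fin s))
    (g : K) (γ : Fin s → K) (hγ : ∑ i, γ i ^ 2 = g)
    (hg : ∀ (f : Fin s → K) (i0 : Fin s), f i0 = 0 → ∑ i, f i ^ 2 ≠ g) {a q : ℕ}
    (κ : Option (Fin (q + 1)) → (Fin a → Bool)) (hκ : Function.Injective κ)
    (hκ0 : κ none = fun _ => false)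
    (b : MvPolynomial (Fin (q * s)) (FractionRing (MvPolynomial (Fin a) K))) (hb : b ≠ 0)
    (h : Fin (q * (s + s) + s) →
      MvPolynomial (Fin (q * s)) (FractionRing (MvPolynomial (Fin a) K)))
    (hh : ∑ i, h i ^ 2 = dform (rii g κ) * b ^ 2) : False := by
  classical
  have hA : FR (MvPolynomial (Fin a) K) := FR.mvPolynomial hK _
  have hk : FR (FractionRing (MvPolynomial (Fin a) K)) := hA.fractionRing
  haveI : Infinite (FractionRing (MvPolynomial (Fin a) K)) :=
    Infinite.of_injective (fun x : K => algebraMap (MvPolynomial (Fin a) K)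
      (FractionRing (MvPolynomial (Fin a) K)) (MvPolynomial.C x))
      ((IsFractionRing.injective _ _).comp (MvPolynomial.C_injective _ _))
  obtain ⟨u, hu, huo, -⟩ := subform hk _ (q * s) Empty (fun l => l.elim) (rii g κ) b hb h hh
    (fun l => l.elim)
  obtain ⟨F, _, θ, A, T, hA2, hA0, hT, hani⟩ := setup hK hs g γ hγ hg a
  have hθdot : ∀ x y : Fin (q * (s + s) + s) → FractionRing (MvPolynomial (Fin a) K),
      (fun i => θ (x i)) ⬝ᵥ (fun i => θ (y i)) = θ (x ⬝ᵥ y) := by
    intro x y
    simp only [dotProduct, map_sum, map_mul]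
  obtain ⟨c, z, hc, hrel⟩ := exists_relation (q := q) (s := s) (d := s) (R := q * s + 1)
    (Nat.lt_succ_self _) rfl T hT (fun j i => θ (u j i)) (fun j : Fin (q * s + 1) => θ (rii g κ j))
    (fun j => by rw [hθdot, hu]) (fun j j' hj => by rw [hθdot, huo j j' hj, map_zero])
  -- the anisotropic form
  obtain ⟨i0, -⟩ := id hs
  let e : Fin (q * s + 1) ⊕ Fin s → Fin s × (Fin a → Bool) :=
    Sum.elim (Fin.lastCases (i0, κ (some (Fin.last q)))
      (fun j => ((finProdFinEquiv.symm j).2, κ (some (finProdFinEquiv.symm j).1.castSucc))))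
      (fun i => (i, κ none))
  have he : Function.Injective e := by
    intro x y hxy
    rcases x with x | x
    · rcases y with y | y
      · congr 1
        revert hxy
        show Fin.lastCases (motive := fun _ => _) _ _ x = Fin.lastCases (motive := fun _ => _) _ _ y → _
        refine Fin.lastCases ?_ (fun x => ?_) x
        · refine Fin.lastCases ?_ (fun y => ?_) y
          · intro _; rfl
          · intro hxy
            rw [Fin.lastCases_last, Fin.lastCases_castSucc] at hxy
            have h1 := congrArg Prod.snd hxy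
            have h2 := Option.some.inj (hκ h1)
            exact absurd h2.symm (Fin.castSucc_lt_last _).ne
        · refine Fin.lastCases ?_ (fun y => ?_) y
          · intro hxy
            rw [Fin.lastCases_last, Fin.lastCases_castSucc] at hxy
            have h1 := congrArg Prod.snd hxy
            have h2 := Option.some.inj (hκ h1)
            exact absurd h2 (Fin.castSucc_lt_last _).ne
          · intro hxy
            rw [Fin.lastCases_castSucc, Fin.lastCases_castSucc] at hxy
            have h1 := congrArg Prod.snd hxy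
            have h2 := Fin.castSucc_injective _ (Option.some.inj (hκ h1))
            have h3 := congrArg Prod.fst hxy
            have h4 : finProdFinEquiv.symm x = finProdFinEquiv.symm y := Prod.ext h2 h3
            rw [finProdFinEquiv.symm.injective h4]
      · exfalso
        revert hxy
        show Fin.lastCases (motive := fun _ => _) _ _ x = (y, κ none) → False
        refine Fin.lastCases ?_ (fun x => ?_) x
        · intro hxy
          rw [Fin.lastCases_last] at hxy
          have h1 := hκ (congrArg Prod.snd hxy)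
          exact absurd h1 (by simp)
        · intro hxy
          rw [Fin.lastCases_castSucc] at hxy
          have h1 := hκ (congrArg Prod.snd hxy)
          exact absurd h1 (by simp)
    · rcases y with y | y
      · exfalso
        revert hxy
        show (x, κ none) = Fin.lastCases (motive := fun _ => _) _ _ y → False
        refine Fin.lastCases ?_ (fun y => ?_) y
        · intro hxy
          rw [Fin.lastCases_last] at hxy
          have h1 := hκ (congrArg Prod.snd hxy)
          exact absurd h1 (by simp)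
        · intro hxy
          rw [Fin.lastCases_castSucc] at hxy
          have h1 := hκ (congrArg Prod.snd hxy)
          exact absurd h1 (by simp)
      · congr 1
        exact congrArg Prod.fst hxy
  have hani' : Aniso (Sum.elim (fun j : Fin (q * s + 1) => θ (rii g κ j)) (fun _ : Fin s => (1 : F))) := by
    refine Aniso.of_injective (RingHom.id F) Function.injective_id e he _ _ ?_ hani
    intro x
    rcases x with x | x
    · show θ (rii g κ x) = θ (algebraMap _ _ (pe g (e (Sum.inl x)).2))
      congr 1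
      refine Fin.lastCases ?_ (fun x => ?_) x
      · simp only [rii, e, Sum.elim_inl, Fin.lastCases_last]
      · simp only [rii, e, Sum.elim_inl, Fin.lastCases_castSucc]
    · show (1 : F) = θ (algebraMap _ _ (pe g (κ none)))
      rw [hκ0, pe_false, map_one, map_one]
  have hTz : (T *ᵥ z) ⬝ᵥ (T *ᵥ z) = -(z ⬝ᵥ z) := by
    rw [Matrix.dotProduct_mulVec, Matrix.vecMul_mulVec, ← Matrix.mulVec_transpose, hT]
    simp only [transpose_neg, transpose_one, Matrix.neg_mulVec, Matrix.one_mulVec,
      neg_dotProduct]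
  have h0 := hani' (Sum.elim c (T *ᵥ z)) (by
    rw [Fintype.sum_sum_type]
    simp only [Sum.elim_inl, Sum.elim_inr, one_mul]
    rw [hrel]
    have h1 : ∑ i, (T *ᵥ z) i ^ 2 = (T *ᵥ z) ⬝ᵥ (T *ᵥ z) :=
      Finset.sum_congr rfl fun i _ => sq _
    have h2 : ∑ i, z i ^ 2 = z ⬝ᵥ z := Finset.sum_congr rfl fun i _ => sq _
    rw [h1, h2, hTz, add_neg_cancel])
  apply hc
  funext j
  exact h0 (Sum.inl j)

theorem core_i {K : Type} [Field K] [Infinite K] (hK : FR K) {s : ℕ} (hs : Mult K (Fin (s + 1)))
    (g : K) (γ : Fin (s + 1) → K) (hγ : ∑ i, γ i ^ 2 = g)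
    (hg : ∀ (f : Fin (s + 1) → K) (i0 : Fin (s + 1)), f i0 = 0 → ∑ i, f i ^ 2 ≠ g) {a q : ℕ}
    (κ : Option (Fin q) → (Fin a → Bool)) (hκ : Function.Injective κ)
    (hκ0 : κ none = fun _ => false)
    (b : MvPolynomial (Fin (q * (s + 1))) (FractionRing (MvPolynomial (Fin a) K))) (hb : b ≠ 0)
    (h : Fin (q * ((s + 1) + (s + 1)) + s) →
      MvPolynomial (Fin (q * (s + 1))) (FractionRing (MvPolynomial (Fin a) K)))
    (hh : ∑ i, h i ^ 2 = dform (ri g κ) * b ^ 2) : False := by
  classical
  have hA : FR (MvPolynomial (Fin a) K) := FR.mvPolynomial hK _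
  have hk : FR (FractionRing (MvPolynomial (Fin a) K)) := hA.fractionRing
  haveI : Infinite (FractionRing (MvPolynomial (Fin a) K)) :=
    Infinite.of_injective (fun x : K => algebraMap (MvPolynomial (Fin a) K)
      (FractionRing (MvPolynomial (Fin a) K)) (MvPolynomial.C x))
      ((IsFractionRing.injective _ _).comp (MvPolynomial.C_injective _ _))
  obtain ⟨u, hu, huo, -⟩ := subform hk _ (q * (s + 1)) Empty (fun l => l.elim) (ri g κ) b hb h hh
    (fun l => l.elim)
  obtain ⟨F, _, θ, A, T, hA2, hA0, hT, hani⟩ := setup hK hs g γ hγ hg a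
  have hθdot : ∀ x y : Fin (q * ((s + 1) + (s + 1)) + s) →
      FractionRing (MvPolynomial (Fin a) K),
      (fun i => θ (x i)) ⬝ᵥ (fun i => θ (y i)) = θ (x ⬝ᵥ y) := by
    intro x y
    simp only [dotProduct, map_sum, map_mul]
  obtain ⟨c, z, hc, hrel⟩ := exists_relation (q := q) (s := s + 1) (d := s)
    (R := q * (s + 1) + 1)
    (Nat.lt_succ_self _) rfl T hT (fun j i => θ (u j i)) (fun j : Fin (q * (s + 1) + 1) => θ (ri g κ j))
    (fun j => by rw [hθdot, hu]) (fun j j' hj => by rw [hθdot, huo j j' hj, map_zero])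
  -- the anisotropic form
  let e : Fin (q * (s + 1)) ⊕ Fin (s + 1) → Fin (s + 1) × (Fin a → Bool) :=
    Sum.elim (fun j => ((finProdFinEquiv.symm j).2, κ (some (finProdFinEquiv.symm j).1)))
      (fun i => (i, κ none))
  have he : Function.Injective e := by
    intro x y hxy
    rcases x with x | x
    · rcases y with y | y
      · congr 1
        have h1 := congrArg Prod.snd hxy
        have h2 := Option.some.inj (hκ h1)
        have h3 := congrArg Prod.fst hxy
        have h4 : finProdFinEquiv.symm x = finProdFinEquiv.symm y := Prod.ext h2 h3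
        exact finProdFinEquiv.symm.injective h4
      · exfalso
        have h1 := hκ (congrArg Prod.snd hxy)
        exact absurd h1 (by simp)
    · rcases y with y | y
      · exfalso
        have h1 := hκ (congrArg Prod.snd hxy)
        exact absurd h1 (by simp)
      · congr 1
        exact congrArg Prod.fst hxy
  have hani' : Aniso (Sum.elim (fun j : Fin (q * (s + 1)) => θ (ri g κ j.castSucc))
      (fun _ : Fin (s + 1) => (1 : F))) := by
    refine Aniso.of_injective (RingHom.id F) Function.injective_id e he _ _ ?_ hani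
    intro x
    rcases x with x | x
    · show θ (ri g κ x.castSucc) = θ (algebraMap _ _ (pe g (e (Sum.inl x)).2))
      congr 1
      simp only [ri, e, Sum.elim_inl, Fin.lastCases_castSucc]
    · show (1 : F) = θ (algebraMap _ _ (pe g (κ none)))
      rw [hκ0, pe_false, map_one, map_one]
  have hTz : ∀ z : Fin (s + 1) → F, (T *ᵥ z) ⬝ᵥ (T *ᵥ z) = -(z ⬝ᵥ z) := by
    intro z
    rw [Matrix.dotProduct_mulVec, Matrix.vecMul_mulVec, ← Matrix.mulVec_transpose, hT]
    simp only [transpose_neg, transpose_one, Matrix.neg_mulVec, Matrix.one_mulVec,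
      neg_dotProduct]
  set z' : Fin (s + 1) → F := Fin.cons (A * c (Fin.last _)) z with hz'
  have hlast : ri g κ (Fin.last (q * (s + 1))) = algebraMap (MvPolynomial (Fin a) K) _
      (MvPolynomial.C g) := by
    simp only [ri, Fin.lastCases_last]
  have hz'z' : z' ⬝ᵥ z' = ∑ j : Fin (q * (s + 1)), θ (ri g κ j.castSucc) * c j.castSucc ^ 2 := by
    have h1 : z' ⬝ᵥ z' = (A * c (Fin.last _)) ^ 2 + ∑ i, z i ^ 2 := by
      rw [hz', dotProduct, Fin.sum_univ_succ]
      simp only [Fin.cons_zero, Fin.cons_succ]
      congr 1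
      · ring
      · exact Finset.sum_congr rfl fun i _ => (sq _).symm
    rw [h1, ← hrel, Fin.sum_univ_castSucc, hlast, mul_pow, hA2]
    ring
  have h0 := hani' (Sum.elim (fun j => c j.castSucc) (T *ᵥ z')) (by
    rw [Fintype.sum_sum_type]
    simp only [Sum.elim_inl, Sum.elim_inr, one_mul]
    rw [← hz'z']
    have h1 : ∑ i, (T *ᵥ z') i ^ 2 = (T *ᵥ z') ⬝ᵥ (T *ᵥ z') :=
      Finset.sum_congr rfl fun i _ => sq _
    rw [h1, hTz, add_neg_cancel])
  have hTz0 : T *ᵥ z' = 0 := by
    funext i
    exact h0 (Sum.inr i)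
  have hz0 : z' = 0 := by
    have h1 : Tᵀ *ᵥ (T *ᵥ z') = -z' := by
      rw [Matrix.mulVec_mulVec, hT, Matrix.neg_mulVec, Matrix.one_mulVec]
    rw [hTz0, Matrix.mulVec_zero] at h1
    exact neg_eq_zero.mp h1.symm
  apply hc
  funext j
  refine Fin.lastCases ?_ (fun j => ?_) j
  · have h1 := congrFun hz0 0
    rw [hz', Fin.cons_zero, Pi.zero_apply] at h1
    exact (mul_eq_zero.mp h1).resolve_left hA0
  · exact h0 (Sum.inl j)

end Pool.H90PF
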