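import Pool.Agent.Helper90.PF.Level

/-!
# The dimension count: an orthogonal system meets the orthogonal space of an isotropic one
-/

namespace Pool.H90PF

open Matrix

theorem exists_relation {F : Type*} [Field F] {q s d R m : ℕ} (hR : q * s < R)
    (hm : m = q * (s + s) + d) (T : Matrix (Fin s) (Fin s) F) (hT : Tᵀ * T = -1)
    (u : Fin R → Fin m → F) (r : Fin R → F) (hu : ∀ j, u j ⬝ᵥ u j = r j)
    (huo : ∀ j j', j ≠ j' → u j ⬝ᵥ u j' = 0) :
    ∃ (a : Fin R → F) (z : Fin d → F), a ≠ 0 ∧ ∑ j, r j * a j ^ 2 = ∑ i, z i ^ 2 := by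
  classical
  have hcard : Fintype.card ((Fin q × (Fin s ⊕ Fin s)) ⊕ Fin d) = m := by
    rw [Fintype.card_sum, Fintype.card_prod, Fintype.card_sum, Fintype.card_fin,
      Fintype.card_fin, Fintype.card_fin, hm]
  let e : (Fin q × (Fin s ⊕ Fin s)) ⊕ Fin d ≃ Fin m := Fintype.equivFinOfCardEq hcard
  let V : (Fin R → F) →ₗ[F] (Fin m → F) := Fintype.linearCombination F u
  let P : (Fin m → F) →ₗ[F] (Fin q × Fin s → F) :=
    { toFun := fun v x => v (e (Sum.inl (x.1, Sum.inr x.2))) -
        ∑ i, T x.2 i * v (e (Sum.inl (x.1, Sum.inl i)))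
      map_add' := by
        intro v w
        funext x
        simp only [Pi.add_apply, mul_add, Finset.sum_add_distrib]
        ring
      map_smul' := by
        intro c v
        funext x
        simp only [Pi.smul_apply, smul_eq_mul, RingHom.id_apply, mul_sub, Finset.mul_sum]
        congr 1
        exact Finset.sum_congr rfl fun i _ => by ring }
  have hker : LinearMap.ker (P.comp V) ≠ ⊥ := by
    apply LinearMap.ker_ne_bot_of_finrank_lt
    rw [Module.finrank_fintype_fun_eq_card, Module.finrank_fintype_fun_eq_card,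
      Fintype.card_prod, Fintype.card_fin, Fintype.card_fin, Fintype.card_fin]
    exact hR
  obtain ⟨a, haker, ha0⟩ := (Submodule.ne_bot_iff _).mp hker
  set v : Fin m → F := V a with hv
  refine ⟨a, fun i => v (e (Sum.inr i)), ha0, ?_⟩
  have hP : P v = 0 := haker
  -- the norm of v from the orthogonal system
  have h1 : v ⬝ᵥ v = ∑ j, r j * a j ^ 2 := by
    have hva : v = ∑ j, a j • u j := rfl
    rw [hva, sum_dotProduct]
    refine Finset.sum_congr rfl fun j _ => ?_
    rw [dotProduct_sum, Finset.sum_eq_single j]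
    · rw [smul_dotProduct, dotProduct_smul, hu j]
      simp only [smul_eq_mul]
      ring
    · intro j' _ hj'
      rw [smul_dotProduct, dotProduct_smul, huo j j' (Ne.symm hj')]
      simp
    · intro h
      exact absurd (Finset.mem_univ j) h
  -- the norm of v from the coordinates
  have h2 : v ⬝ᵥ v = ∑ i, v (e (Sum.inr i)) ^ 2 := by
    have h3 : v ⬝ᵥ v = ∑ x, v (e x) * v (e x) := (Equiv.sum_comp e (fun i => v i * v i)).symm
    rw [h3, Fintype.sum_sum_type, Fintype.sum_prod_type]
    have h4 : ∀ l : Fin q, ∑ y : Fin s ⊕ Fin s,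
        v (e (Sum.inl (l, y))) * v (e (Sum.inl (l, y))) = 0 := by
      intro l
      rw [Fintype.sum_sum_type]
      set x : Fin s → F := fun i => v (e (Sum.inl (l, Sum.inl i))) with hx
      have hy : (fun i => v (e (Sum.inl (l, Sum.inr i)))) = T *ᵥ x := by
        funext i
        have := congrFun hP (l, i)
        exact sub_eq_zero.mp this
      have h5 : (T *ᵥ x) ⬝ᵥ (T *ᵥ x) = -(x ⬝ᵥ x) := by
        rw [Matrix.dotProduct_mulVec, Matrix.vecMul_mulVec, ← Matrix.mulVec_transpose, hT]
        simp only [transpose_neg, transpose_one, Matrix.neg_mulVec, Matrix.one_mulVec,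
          neg_dotProduct]
      have h6 : ∑ i, v (e (Sum.inl (l, Sum.inr i))) * v (e (Sum.inl (l, Sum.inr i))) =
          (T *ᵥ x) ⬝ᵥ (T *ᵥ x) := by
        rw [← hy]; rfl
      rw [h6, h5]
      show x ⬝ᵥ x + -(x ⬝ᵥ x) = 0
      ring
    rw [Finset.sum_congr rfl fun l _ => h4 l, Finset.sum_const_zero, zero_add]
    exact Finset.sum_congr rfl fun i _ => (sq _).symm
  rw [← h1, h2]

end Pool.H90PF
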