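import Pool.Agent.Helper90.PF.Aniso

/-!
# Pfister's multiplicative matrices and the form `s<1>` over `K(√-g)`
-/

namespace Pool.H90PF

open Matrix

/-- The index type `ι` carries multiplicative matrices with prescribed row. -/
def Mult (K : Type*) [Field K] (ι : Type) [Fintype ι] [DecidableEq ι] : Prop :=
  ∃ i0 : ι, ∀ γ : ι → K, ∃ T : Matrix ι ι K, T i0 = γ ∧
    T * Tᵀ = (γ ⬝ᵥ γ) • (1 : Matrix ι ι K) ∧ Tᵀ * T = (γ ⬝ᵥ γ) • (1 : Matrix ι ι K)

theorem Mult.equiv {K : Type*} [Field K] {ι κ : Type} [Fintype ι] [DecidableEq ι] [Fintype κ]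
    [DecidableEq κ] (e : ι ≃ κ) (h : Mult K ι) : Mult K κ := by
  obtain ⟨i0, h⟩ := h
  refine ⟨e i0, fun γ => ?_⟩
  obtain ⟨T, h1, h2, h3⟩ := h (γ ∘ e)
  have hγ : (γ ∘ e) ⬝ᵥ (γ ∘ e) = γ ⬝ᵥ γ := by
    simp only [dotProduct, Function.comp]
    exact Equiv.sum_comp e (fun i => γ i * γ i)
  refine ⟨Matrix.reindex e e T, ?_, ?_, ?_⟩
  · funext j
    simp only [Matrix.reindex_apply, Matrix.submatrix_apply, Equiv.symm_apply_apply]
    rw [h1]
    simp
  · rw [Matrix.transpose_reindex, Matrix.reindex_apply, Matrix.reindex_apply,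
      Matrix.submatrix_mul_equiv, h2, hγ]
    ext i j
    simp [Matrix.one_apply]
  · rw [Matrix.transpose_reindex, Matrix.reindex_apply, Matrix.reindex_apply,
      Matrix.submatrix_mul_equiv, h3, hγ]
    ext i j
    simp [Matrix.one_apply]

theorem Mult.unit (K : Type*) [Field K] : Mult K Unit := by
  refine ⟨(), fun γ => ⟨fun _ => γ, rfl, ?_, ?_⟩⟩
  · ext i j
    simp [Matrix.mul_apply, dotProduct]
  · ext i j
    simp [Matrix.mul_apply, dotProduct]

theorem Mult.double {K : Type*} [Field K] (hK : ∀ (ι : Type) [Fintype ι] (v : ι → K),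
    v ⬝ᵥ v = 0 → v = 0) {ι : Type} [Fintype ι] [DecidableEq ι] (h : Mult K ι) :
    Mult K (ι ⊕ ι) := by
  obtain ⟨i0, h⟩ := h
  refine ⟨Sum.inl i0, fun γ => ?_⟩
  obtain ⟨T1, h1, h2, h3⟩ := h (fun i => γ (Sum.inl i))
  obtain ⟨T2, k1, k2, k3⟩ := h (fun i => γ (Sum.inr i))
  set a := (fun i => γ (Sum.inl i)) ⬝ᵥ (fun i => γ (Sum.inl i)) with ha
  set b := (fun i => γ (Sum.inr i)) ⬝ᵥ (fun i => γ (Sum.inr i)) with hb
  have hγ : γ ⬝ᵥ γ = a + b := by
    rw [dotProduct, Fintype.sum_sum_type]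
    rfl
  have hone : (a + b) • (1 : Matrix (ι ⊕ ι) (ι ⊕ ι) K) =
      fromBlocks ((a + b) • 1) 0 0 ((a + b) • 1) := by
    rw [← fromBlocks_one, fromBlocks_smul]
    simp
  by_cases ha0 : a = 0
  · have hl : (fun i => γ (Sum.inl i)) = 0 := hK ι _ ha0
    refine ⟨fromBlocks 0 T2 T2ᵀ 0, ?_, ?_, ?_⟩
    · funext j
      cases j with
      | inl j => simpa using (congrFun hl j).symm
      | inr j => simp [k1]
    · rw [hγ, hone, fromBlocks_transpose, fromBlocks_multiply]
      simp only [transpose_zero, transpose_transpose, zero_mul, mul_zero, zero_add, add_zero,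
        ha0, k2, k3]
    · rw [hγ, hone, fromBlocks_transpose, fromBlocks_multiply]
      simp only [transpose_zero, transpose_transpose, zero_mul, mul_zero, zero_add, add_zero,
        ha0, k2, k3]
  · have hT1 : T1 * T1ᵀ = a • 1 := h2
    have hT1' : T1ᵀ * T1 = a • 1 := h3
    have hT2 : T2 * T2ᵀ = b • 1 := k2
    have hT2' : T2ᵀ * T2 = b • 1 := k3
    set Y : Matrix ι ι K := -(a⁻¹ • (T1ᵀ * T2ᵀ * T1)) with hY
    have hYt : Yᵀ = -(a⁻¹ • (T1ᵀ * T2 * T1)) := by
      rw [hY]
      simp only [transpose_neg, transpose_smul, transpose_mul, transpose_transpose]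
      rw [Matrix.mul_assoc]
    have e1 : T1 * Yᵀ = -(T2 * T1) := by
      rw [hYt, Matrix.mul_neg, Matrix.mul_smul, ← Matrix.mul_assoc, ← Matrix.mul_assoc, hT1]
      simp only [Matrix.smul_mul, Matrix.one_mul]
      rw [smul_smul, inv_mul_cancel₀ ha0, one_smul]
    have e2 : Y * T1ᵀ = -(T1ᵀ * T2ᵀ) := by
      have := congrArg transpose e1
      rw [transpose_mul, transpose_transpose, transpose_neg, transpose_mul] at this
      exact this
    have e3 : Y * Yᵀ = b • 1 := by
      rw [hY, hYt, neg_mul_neg, Matrix.smul_mul, Matrix.mul_smul]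
      have : T1ᵀ * T2ᵀ * T1 * (T1ᵀ * T2 * T1) = (a * (b * a)) • 1 := by
        calc T1ᵀ * T2ᵀ * T1 * (T1ᵀ * T2 * T1)
            = T1ᵀ * T2ᵀ * (T1 * T1ᵀ) * (T2 * T1) := by simp only [Matrix.mul_assoc]
          _ = a • (T1ᵀ * (T2ᵀ * T2) * T1) := by
              rw [hT1]
              simp only [Matrix.mul_smul, Matrix.smul_mul, Matrix.mul_one, Matrix.mul_assoc]
          _ = (a * (b * a)) • 1 := by
              rw [hT2']
              simp only [Matrix.mul_smul, Matrix.smul_mul, Matrix.mul_one]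
              rw [hT1', smul_smul, smul_smul]
              ring_nf
      rw [this, smul_smul, smul_smul]
      congr 1
      field_simp
    have e4 : Yᵀ * Y = b • 1 := by
      rw [hY, hYt, neg_mul_neg, Matrix.smul_mul, Matrix.mul_smul]
      have : T1ᵀ * T2 * T1 * (T1ᵀ * T2ᵀ * T1) = (a * (b * a)) • 1 := by
        calc T1ᵀ * T2 * T1 * (T1ᵀ * T2ᵀ * T1)
            = T1ᵀ * T2 * (T1 * T1ᵀ) * (T2ᵀ * T1) := by simp only [Matrix.mul_assoc]
          _ = a • (T1ᵀ * (T2 * T2ᵀ) * T1) := by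
              rw [hT1]
              simp only [Matrix.mul_smul, Matrix.smul_mul, Matrix.mul_one, Matrix.mul_assoc]
          _ = (a * (b * a)) • 1 := by
              rw [hT2]
              simp only [Matrix.mul_smul, Matrix.smul_mul, Matrix.mul_one]
              rw [hT1', smul_smul, smul_smul]
              ring_nf
      rw [this, smul_smul, smul_smul]
      congr 1
      field_simp
    have e5 : T1ᵀ * T2 + Yᵀ * T1ᵀ = 0 := by
      rw [hYt, Matrix.neg_mul, Matrix.smul_mul, Matrix.mul_assoc _ T1 T1ᵀ, hT1]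
      simp only [Matrix.mul_smul, Matrix.mul_one]
      rw [smul_smul, inv_mul_cancel₀ ha0, one_smul, add_neg_cancel]
    have e6 : T2ᵀ * T1 + T1 * Y = 0 := by
      have := congrArg transpose e5
      rw [transpose_add, transpose_mul, transpose_mul, transpose_transpose, transpose_transpose,
        transpose_zero] at this
      exact this
    refine ⟨fromBlocks T1 T2 Y T1ᵀ, ?_, ?_, ?_⟩
    · funext j
      cases j with
      | inl j => simp [h1]
      | inr j => simp [k1]
    · rw [hγ, hone, fromBlocks_transpose, fromBlocks_multiply, transpose_transpose]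
      congr 1
      · rw [hT1, hT2, add_smul]
      · rw [e1]; simp
      · rw [e2]; simp
      · rw [e3, hT1', add_comm a b, add_smul]
    · rw [hγ, hone, fromBlocks_transpose, fromBlocks_multiply, transpose_transpose]
      congr 1
      · rw [hT1', e4, add_smul]
      · rw [hT2', hT1, add_comm a b, add_smul]

theorem FR.dot {K : Type*} [Field K] (hK : FR K) (ι : Type) [Fintype ι] (v : ι → K)
    (h : v ⬝ᵥ v = 0) : v = 0 := by
  classical
  have e := (Fintype.equivFin ι).symm
  have h1 := hK (Fintype.card ι) (fun j => v (e j)) (by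
    rw [Equiv.sum_comp e (fun i => v i ^ 2), ← h]
    exact Finset.sum_congr rfl fun i _ => sq (v i))
  funext i
  have := h1 (e.symm i)
  simpa using this

theorem Mult.two_pow {K : Type*} [Field K] (hK : FR K) (j : ℕ) : Mult K (Fin (2 ^ j)) := by
  induction j with
  | zero =>
    exact (Mult.unit K).equiv (Equiv.ofUnique Unit (Fin 1))
  | succ j ih =>
    refine (Mult.double (fun ι _ v => hK.dot ι v) ih).equiv (finSumFinEquiv.trans (finCongr ?_))
    rw [pow_succ]; ring

/-- If `g` is not a sum of squares of `s` elements one of which is zero, `s = 2 ^ j`, then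
`s<1>` is anisotropic over `K(√-g)`. -/
theorem aniso_level {K : Type*} [Field K] (hK : FR K) {s : ℕ} (hs : Mult K (Fin s)) (g : K)
    (hg : ∀ (f : Fin s → K) (i0 : Fin s), f i0 = 0 → ∑ i, f i ^ 2 ≠ g)
    (z : Fin s → QuadraticAlgebra K (-g) 0) (hz : ∑ i, z i ^ 2 = 0) : ∀ i, z i = 0 := by
  set a : Fin s → K := fun i => (z i).re with ha
  set b : Fin s → K := fun i => (z i).im with hb
  have hre : ∑ i, a i ^ 2 = g * ∑ i, b i ^ 2 := by
    have h1 : (∑ i, z i ^ 2).re = ∑ i, (a i ^ 2 - g * b i ^ 2) := by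
      rw [← QuadraticAlgebra.reₗ_apply, map_sum]
      refine Finset.sum_congr rfl fun i _ => ?_
      rw [QuadraticAlgebra.reₗ_apply, sq, QuadraticAlgebra.re_mul]
      ring
    rw [hz, QuadraticAlgebra.re_zero, Finset.sum_sub_distrib, ← Finset.mul_sum] at h1
    exact (sub_eq_zero.mp h1.symm)
  have him : ∑ i, b i * a i = 0 := by
    have h1 : (∑ i, z i ^ 2).im = ∑ i, 2 * (b i * a i) := by
      rw [← QuadraticAlgebra.imₗ_apply, map_sum]
      refine Finset.sum_congr rfl fun i _ => ?_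
      rw [QuadraticAlgebra.imₗ_apply, sq, QuadraticAlgebra.im_mul]
      ring
    rw [hz, QuadraticAlgebra.im_zero, ← Finset.mul_sum] at h1
    exact (mul_eq_zero.mp h1.symm).resolve_left hK.two_ne_zero
  have hb0 : ∀ i, b i = 0 := by
    by_contra hcon
    have hβ : ∑ i, b i ^ 2 ≠ 0 := fun h => hcon (hK s b h)
    obtain ⟨i0, hM⟩ := hs
    obtain ⟨T, hT0, hT1, hT2⟩ := hM b
    have hbb : b ⬝ᵥ b = ∑ i, b i ^ 2 := Finset.sum_congr rfl fun i _ => (sq (b i)).symm
    have haa : a ⬝ᵥ a = ∑ i, a i ^ 2 := Finset.sum_congr rfl fun i _ => (sq (a i)).symm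
    set β := ∑ i, b i ^ 2 with hβdef
    have hTa : (T *ᵥ a) ⬝ᵥ (T *ᵥ a) = β * (g * β) := by
      rw [Matrix.dotProduct_mulVec, Matrix.vecMul_mulVec, ← Matrix.mulVec_transpose,
        hT2, hbb]
      simp only [transpose_smul, transpose_one, Matrix.smul_mulVec, Matrix.one_mulVec,
        smul_dotProduct, smul_eq_mul]
      rw [haa, hre]
    refine hg (fun i => (T *ᵥ a) i / β) i0 ?_ ?_
    · have : (T *ᵥ a) i0 = 0 := by
        rw [← him, Matrix.mulVec, hT0]
        rfl
      rw [this, zero_div]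
    · have h1 : ∀ i, ((T *ᵥ a) i / β) ^ 2 = ((T *ᵥ a) i * (T *ᵥ a) i) / β ^ 2 := by
        intro i; rw [div_pow, sq ((T *ᵥ a) i)]
      rw [Finset.sum_congr rfl fun i _ => h1 i, ← Finset.sum_div]
      have h2 : ∑ i, (T *ᵥ a) i * (T *ᵥ a) i = β * (g * β) := hTa
      rw [h2]
      field_simp
  have ha0 : ∀ i, a i = 0 := by
    apply hK s a
    rw [hre]
    simp [hb0]
  intro i
  exact QuadraticAlgebra.ext (ha0 i) (hb0 i)

end Pool.H90PF
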