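import Pool.Agent.Helper90.PF.Core

/-!
# Lower bounds for the Pythagoras number of rational function fields
-/

namespace Pool.H90PF

open Matrix

/-- Each sum of squares in `K` is a sum of `p` squares (that is, `p(K) ≤ p`). -/
def SqBound (K : Type) [Field K] (p : ℕ) : Prop :=
  ∀ x : K, IsSumSq x → ∃ f : Fin p → K, x = ∑ i, f i ^ 2

theorem isSumSq_map {R S : Type*} [CommRing R] [CommRing S] (φ : R →+* S) {x : R}
    (hx : IsSumSq x) : IsSumSq (φ x) := by
  induction hx with
  | zero => rw [map_zero]; exact IsSumSq.zero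
  | sq_add a _ ih => rw [map_add, map_mul]; exact IsSumSq.sq_add _ ih

theorem SqBound.equiv {K L : Type} [Field K] [Field L] (e : K ≃+* L) {p : ℕ}
    (h : SqBound K p) : SqBound L p := by
  intro x hx
  obtain ⟨f, hf⟩ := h (e.symm x) (isSumSq_map (e.symm : L →+* K) hx)
  refine ⟨fun i => e (f i), ?_⟩
  have := congrArg e hf
  rw [e.apply_symm_apply, map_sum] at this
  rw [this]
  exact Finset.sum_congr rfl fun i _ => map_pow _ _ _

theorem SqBound.mono {K : Type} [Field K] {p m : ℕ} (h : SqBound K p) (hpm : p ≤ m) :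
    SqBound K m := by
  intro x hx
  obtain ⟨f, hf⟩ := h x hx
  obtain ⟨d, rfl⟩ := Nat.exists_eq_add_of_le hpm
  refine ⟨Fin.append f (fun _ => 0), ?_⟩
  rw [Fin.sum_univ_add, hf]
  simp

theorem isFractionRing_tower (A : Type) [CommRing A] [IsDomain A] (n : ℕ) :
    Nonempty (FractionRing (MvPolynomial (Fin n) A) ≃+*
      FractionRing (MvPolynomial (Fin n) (FractionRing A))) := by
  let B := MvPolynomial (Fin n) A
  let B' := MvPolynomial (Fin n) (FractionRing A)
  let L := FractionRing B'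
  let φ : B →+* L := (algebraMap B' L).comp (MvPolynomial.map (algebraMap A (FractionRing A)))
  have hφ : Function.Injective φ := by
    intro x y hxy
    exact MvPolynomial.map_injective _ (IsFractionRing.injective A (FractionRing A))
      (IsFractionRing.injective B' L hxy)
  letI : Algebra B L := φ.toAlgebra
  haveI : FaithfulSMul B L := (faithfulSMul_iff_algebraMap_injective B L).mpr hφ
  have hsurj : ∀ z : L, ∃ x y : B, z = algebraMap B L x / algebraMap B L y := by
    intro z
    letI : Algebra B B' := MvPolynomial.algebraMvPolynomial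
    obtain ⟨x', y', hy', rfl⟩ := IsFractionRing.div_surjective (A := B') z
    obtain ⟨⟨x, c⟩, hx⟩ := IsLocalization.surj ((nonZeroDivisors A).map
      (MvPolynomial.C (σ := Fin n))) x'
    obtain ⟨⟨y, d⟩, hy⟩ := IsLocalization.surj ((nonZeroDivisors A).map
      (MvPolynomial.C (σ := Fin n))) y'
    simp only at hx hy
    have key : ∀ w : B, algebraMap B' L (algebraMap B B' w) = algebraMap B L w := fun w => rfl
    have hne : ∀ c : (nonZeroDivisors A).map (MvPolynomial.C (σ := Fin n)),
        algebraMap B L (c : B) ≠ 0 := by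
      rintro ⟨c, c', hc', rfl⟩
      intro h0
      have h1 : (MvPolynomial.C (σ := Fin n) c') = 0 := hφ (by rw [map_zero]; exact h0)
      have h2 : c' = 0 := MvPolynomial.C_injective (Fin n) A (by rw [h1, map_zero])
      exact nonZeroDivisors.ne_zero hc' h2
    have hx1 := congrArg (algebraMap B' L) hx
    have hy1 := congrArg (algebraMap B' L) hy
    rw [map_mul, key, key] at hx1 hy1
    have hy'0 : algebraMap B' L y' ≠ 0 :=
      IsFractionRing.to_map_ne_zero_of_mem_nonZeroDivisors hy'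
    refine ⟨x * d, y * c, ?_⟩
    have hc := hne c
    have hd := hne d
    rw [map_mul, map_mul, ← hx1, ← hy1,
      div_eq_div_iff hy'0 (mul_ne_zero (mul_ne_zero hy'0 hd) hc)]
    ring
  haveI : IsFractionRing B L := IsFractionRing.of_field B L hsurj
  exact ⟨(FractionRing.algEquiv B L).toRingEquiv⟩

/-- Iterated rational function fields. -/
theorem ratfun_equiv (K : Type) [Field K] (N n : ℕ) :
    Nonempty (FractionRing (MvPolynomial (Fin (N + n)) K) ≃+*
      FractionRing (MvPolynomial (Fin n) (FractionRing (MvPolynomial (Fin N) K)))) := by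
  obtain ⟨e⟩ := isFractionRing_tower (MvPolynomial (Fin N) K) n
  let e1 : MvPolynomial (Fin (N + n)) K ≃+* MvPolynomial (Fin n) (MvPolynomial (Fin N) K) :=
    ((MvPolynomial.renameEquiv K (finSumFinEquiv.symm.trans (Equiv.sumComm _ _))).trans
      (MvPolynomial.sumAlgEquiv K (Fin n) (Fin N))).toRingEquiv
  exact ⟨(IsFractionRing.ringEquivOfRingEquiv e1).trans e⟩

theorem bound_of_core {k : Type} [Field k] {q m : ℕ} (r : Fin (q + 1) → k)
    (hr : ∀ j, IsSumSq (r j))
    (hcore : ∀ b : MvPolynomial (Fin q) k, b ≠ 0 → ∀ h : Fin m → MvPolynomial (Fin q) k,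
      ∑ i, h i ^ 2 ≠ dform r * b ^ 2)
    (p : ℕ) (hp : SqBound (FractionRing (MvPolynomial (Fin q) k)) p) : m + 1 ≤ p := by
  by_contra hcon
  have hpm : p ≤ m := by omega
  have hm := hp.mono hpm
  let α : MvPolynomial (Fin q) k →+* FractionRing (MvPolynomial (Fin q) k) := algebraMap _ _
  have hα : Function.Injective α := IsFractionRing.injective _ _
  have hd : IsSumSq (dform r) := by
    unfold dform
    refine IsSumSq.add (IsSumSq.sum fun j _ => ?_) (isSumSq_map _ (hr _))
    refine IsSumSq.mul (isSumSq_map _ (hr _)) ?_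
    rw [sq]; exact IsSumSq.mul_self _
  obtain ⟨f, hf⟩ := hm (α (dform r)) (isSumSq_map α hd)
  obtain ⟨b, g, hb, hg⟩ := clear_vec (A := MvPolynomial (Fin q) k) f
  apply hcore b hb g
  apply hα
  have h1 : ∀ i, α (g i ^ 2) = α b ^ 2 * f i ^ 2 := by
    intro i
    have : α (g i) = α b * f i := hg i
    rw [map_pow, this, mul_pow]
  rw [map_sum, Finset.sum_congr rfl fun i _ => h1 i, ← Finset.mul_sum, ← hf, map_mul, map_pow,
    mul_comm]

theorem exists_gamma {K : Type} [Field K] {s : ℕ} (h : ¬ SqBound K s) :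
    ∃ γ : Fin (s + 1) → K, ∀ (f : Fin (s + 1) → K) (i0 : Fin (s + 1)), f i0 = 0 →
      ∑ i, f i ^ 2 ≠ ∑ i, γ i ^ 2 := by
  have key : ∀ x : K, IsSumSq x → (¬ ∃ f : Fin s → K, x = ∑ i, f i ^ 2) →
      ∃ γ : Fin (s + 1) → K, ¬ ∃ f : Fin s → K, ∑ i, γ i ^ 2 = ∑ i, f i ^ 2 := by
    intro x hx
    induction hx with
    | zero =>
      intro h
      exact absurd ⟨fun _ => 0, by simp⟩ h
    | @sq_add a y hy ih =>
      intro h
      by_cases hyf : ∃ f : Fin s → K, y = ∑ i, f i ^ 2
      · obtain ⟨f, hf⟩ := hyf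
        refine ⟨Fin.cons a f, ?_⟩
        rw [Fin.sum_univ_succ]
        simp only [Fin.cons_zero, Fin.cons_succ]
        rw [← hf, sq]
        exact h
      · exact ih hyf
  unfold SqBound at h
  push Not at h
  obtain ⟨x, hx, hxf⟩ := h
  obtain ⟨γ, hγ⟩ := key x hx (by push Not; exact hxf)
  refine ⟨γ, fun f i0 hf0 heq => hγ ⟨fun i => f (i0.succAbove i), ?_⟩⟩
  rw [← heq, Fin.sum_univ_succAbove _ i0, hf0]
  simp

theorem isSumSq_pe {K : Type} [Field K] {a : ℕ} {g : K} (hg : IsSumSq g) (ε : Fin a → Bool) :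
    IsSumSq (pe g ε) := by
  unfold pe
  refine IsSumSq.prod fun i _ => ?_
  split_ifs
  · refine IsSumSq.add ?_ (isSumSq_map _ hg)
    rw [sq]; exact IsSumSq.mul_self _
  · exact IsSumSq.one

theorem exists_kappa {a c : ℕ} (h : c + 1 ≤ 2 ^ a) :
    ∃ κ : Option (Fin c) → (Fin a → Bool), Function.Injective κ ∧ κ none = fun _ => false := by
  have hcard : Fintype.card (Option (Fin c)) ≤ Fintype.card (Fin a → Bool) := by
    rw [Fintype.card_option, Fintype.card_fin, Fintype.card_pi, Finset.prod_const,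
      Fintype.card_bool, Finset.card_univ, Fintype.card_fin]
    exact h
  obtain ⟨κ⟩ := Function.Embedding.nonempty_of_card_le hcard
  refine ⟨fun o => Equiv.swap (κ none) (fun _ => false) (κ o), ?_, ?_⟩
  · intro x y hxy
    exact κ.injective ((Equiv.swap _ _).injective hxy)
  · exact Equiv.swap_apply_left _ _

/-- The general lower bound over a formally real field. -/
theorem main_K {K : Type} [Field K] [Infinite K] (hK : FR K) (j : ℕ)
    (h : ∀ p, SqBound K p → 2 ^ j ≤ p) (a q : ℕ) :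
    (q + 1 ≤ 2 ^ a → ∀ p,
      SqBound (FractionRing (MvPolynomial (Fin (a + q * 2 ^ j)) K)) p →
        2 * q * 2 ^ j + 2 ^ j ≤ p) ∧
    (q + 2 ≤ 2 ^ a → ∀ p,
      SqBound (FractionRing (MvPolynomial (Fin (a + q * 2 ^ j)) K)) p →
        2 * q * 2 ^ j + 2 ^ j + 1 ≤ p) := by
  have hs := Mult.two_pow hK j
  obtain ⟨s, hs1⟩ : ∃ s, 2 ^ j = s + 1 := ⟨2 ^ j - 1, by have := Nat.one_le_two_pow (n := j); omega⟩
  rw [hs1] at hs h ⊢
  have hns : ¬ SqBound K s := fun hc => by have := h s hc; omega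
  obtain ⟨γ, hγ⟩ := exists_gamma hns
  set g : K := ∑ i, γ i ^ 2 with hg
  have hgs : IsSumSq g := by
    rw [hg]
    exact IsSumSq.sum fun i _ => by rw [sq]; exact IsSumSq.mul_self _
  constructor
  · intro hq p hp
    obtain ⟨κ, hκ, hκ0⟩ := exists_kappa hq
    obtain ⟨e⟩ := ratfun_equiv K a (q * (s + 1))
    have h1 := bound_of_core (m := q * ((s + 1) + (s + 1)) + s) (ri g κ (s := s + 1))
      (fun i => by
        refine Fin.lastCases ?_ (fun i => ?_) i
        · simp only [ri, Fin.lastCases_last]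
          exact isSumSq_map _ (isSumSq_map _ hgs)
        · simp only [ri, Fin.lastCases_castSucc]
          exact isSumSq_map _ (isSumSq_pe hgs _))
      (fun b hb f hf => core_i hK hs g γ hg.symm hγ κ hκ hκ0 b hb f hf) p (hp.equiv e)
    have h2 : q * (s + 1 + (s + 1)) + s + 1 = 2 * q * (s + 1) + (s + 1) := by ring
    omega
  · intro hq p hp
    obtain ⟨κ, hκ, hκ0⟩ := exists_kappa (c := q + 1) (a := a) hq
    obtain ⟨e⟩ := ratfun_equiv K a (q * (s + 1))
    have h1 := bound_of_core (m := q * ((s + 1) + (s + 1)) + (s + 1)) (rii g κ (s := s + 1))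
      (fun i => by
        refine Fin.lastCases ?_ (fun i => ?_) i
        · simp only [rii, Fin.lastCases_last]
          exact isSumSq_map _ (isSumSq_pe hgs _)
        · simp only [rii, Fin.lastCases_castSucc]
          exact isSumSq_map _ (isSumSq_pe hgs _))
      (fun b hb f hf => core_ii hK hs g γ hg.symm hγ κ hκ hκ0 b hb f hf) p (hp.equiv e)
    have h2 : q * (s + 1 + (s + 1)) + (s + 1) + 1 = 2 * q * (s + 1) + (s + 1) + 1 := by ring
    omega

theorem FR.real : FR ℝ := by
  intro m v hv i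
  have := (Finset.sum_eq_zero_iff_of_nonneg (fun i _ => sq_nonneg (v i))).mp hv i
    (Finset.mem_univ i)
  exact pow_eq_zero_iff (_root_.two_ne_zero) |>.mp this

/-- The recursion for the real rational function fields. -/
theorem main_real (N j : ℕ)
    (h : ∀ p, SqBound (FractionRing (MvPolynomial (Fin N) ℝ)) p → 2 ^ j ≤ p) (a q : ℕ) :
    (q + 1 ≤ 2 ^ a → ∀ p,
      SqBound (FractionRing (MvPolynomial (Fin (N + (a + q * 2 ^ j))) ℝ)) p →
        2 * q * 2 ^ j + 2 ^ j ≤ p) ∧
    (q + 2 ≤ 2 ^ a → ∀ p,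
      SqBound (FractionRing (MvPolynomial (Fin (N + (a + q * 2 ^ j))) ℝ)) p →
        2 * q * 2 ^ j + 2 ^ j + 1 ≤ p) := by
  have hA : FR (MvPolynomial (Fin N) ℝ) := FR.mvPolynomial FR.real _
  have hk : FR (FractionRing (MvPolynomial (Fin N) ℝ)) := hA.fractionRing
  haveI : Infinite (FractionRing (MvPolynomial (Fin N) ℝ)) :=
    Infinite.of_injective (fun x : ℝ => algebraMap (MvPolynomial (Fin N) ℝ)
      (FractionRing (MvPolynomial (Fin N) ℝ)) (MvPolynomial.C x))
      ((IsFractionRing.injective _ _).comp (MvPolynomial.C_injective _ _))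
  obtain ⟨e⟩ := ratfun_equiv ℝ N (a + q * 2 ^ j)
  obtain ⟨h1, h2⟩ := main_K hk j h a q
  exact ⟨fun hq p hp => h1 hq p (hp.equiv e), fun hq p hp => h2 hq p (hp.equiv e)⟩

/-- The explicit bound. -/
theorem explicit (t n p : ℕ) (hn : n + 2 ≤ 2 ^ t + t)
    (hp : SqBound (FractionRing (MvPolynomial (Fin n) ℝ)) p) : 2 * (n + 1 - t) ≤ p := by
  by_cases htn : n < t
  · omega
  push Not at htn
  obtain ⟨q, rfl⟩ := Nat.exists_eq_add_of_le htn
  have h0 : ∀ p, SqBound ℝ p → 2 ^ 0 ≤ p := by
    intro p hp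
    by_contra hcon
    have hp0 : p = 0 := by simpa using hcon
    subst hp0
    obtain ⟨f, hf⟩ := hp 1 IsSumSq.one
    simp at hf
  have h1 := (main_K FR.real 0 h0 t q).2 (by omega) p (by rw [pow_zero, mul_one]; exact hp)
  rw [pow_zero, mul_one] at h1
  omega

end Pool.H90PF
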